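import Pool.Agent.H44.ShellData

set_option linter.defProp false

namespace H44Shell

def nk (k r : ℕ) : ℕ := cond (Nat.beq r 0) k (k + 3 - r)

def cert_tab : ([4,5,6,7].all fun k => [0,2,3,4,5,6].all fun r =>
    tabOK r (ptF (nk k r)) (tbF k r) (ptF k)) = true := by decide +kernel

def cert_base : ([4,5,6,7].all fun k =>
    bwdR (clF k) (nlF k) (clo (ptF k)) [1] 0 1) = true := by decide +kernel

def cert_small : ([(4,0),(4,2),(4,3),(5,0),(5,2),(5,3),(5,4),(6,0),(6,3),(6,4),(6,5),
    (7,4),(7,5),(7,6)].all fun e : ℕ × ℕ =>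
    bwdR (clF e.1) (nlF e.1) (tbF e.1 e.2) (clF (nk e.1 e.2)) 0 (nlF (nk e.1 e.2))) = true := by
  decide +kernel

def cert_62_0 : bwdR (clF 6) (nlF 6) (tbF 6 2) (clF 7) 0 1450 = true := by decide +kernel
def cert_62_1 : bwdR (clF 6) (nlF 6) (tbF 6 2) (clF 7) 1450 1450 = true := by decide +kernel
def cert_62_2 : bwdR (clF 6) (nlF 6) (tbF 6 2) (clF 7) 2900 1450 = true := by decide +kernel
def cert_62_3 : bwdR (clF 6) (nlF 6) (tbF 6 2) (clF 7) 4350 1440 = true := by decide +kernel

theorem cert_62 (j : ℕ) (hj : j < 5790) : Bwd (clF 6) (nlF 6) (tbF 6 2) (clF 7) j := by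
  by_cases a0 : j < 1450
  · exact bwdR_spec cert_62_0 j (by omega) (by omega)
  by_cases a1 : j < 2900
  · exact bwdR_spec cert_62_1 j (by omega) (by omega)
  by_cases a2 : j < 4350
  · exact bwdR_spec cert_62_2 j (by omega) (by omega)
  exact bwdR_spec cert_62_3 j (by omega) (by omega)

def cert_70_0 : bwdR (clF 7) (nlF 7) (tbF 7 0) (clF 7) 0 500 = true := by decide +kernel
def cert_70_1 : bwdR (clF 7) (nlF 7) (tbF 7 0) (clF 7) 500 500 = true := by decide +kernel
def cert_70_2 : bwdR (clF 7) (nlF 7) (tbF 7 0) (clF 7) 1000 500 = true := by decide +kernel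
def cert_70_3 : bwdR (clF 7) (nlF 7) (tbF 7 0) (clF 7) 1500 500 = true := by decide +kernel
def cert_70_4 : bwdR (clF 7) (nlF 7) (tbF 7 0) (clF 7) 2000 500 = true := by decide +kernel
def cert_70_5 : bwdR (clF 7) (nlF 7) (tbF 7 0) (clF 7) 2500 500 = true := by decide +kernel
def cert_70_6 : bwdR (clF 7) (nlF 7) (tbF 7 0) (clF 7) 3000 500 = true := by decide +kernel
def cert_70_7 : bwdR (clF 7) (nlF 7) (tbF 7 0) (clF 7) 3500 500 = true := by decide +kernel
def cert_70_8 : bwdR (clF 7) (nlF 7) (tbF 7 0) (clF 7) 4000 500 = true := by decide +kernel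
def cert_70_9 : bwdR (clF 7) (nlF 7) (tbF 7 0) (clF 7) 4500 500 = true := by decide +kernel
def cert_70_10 : bwdR (clF 7) (nlF 7) (tbF 7 0) (clF 7) 5000 500 = true := by decide +kernel
def cert_70_11 : bwdR (clF 7) (nlF 7) (tbF 7 0) (clF 7) 5500 290 = true := by decide +kernel

theorem cert_70 (j : ℕ) (hj : j < 5790) : Bwd (clF 7) (nlF 7) (tbF 7 0) (clF 7) j := by
  by_cases a0 : j < 500
  · exact bwdR_spec cert_70_0 j (by omega) (by omega)
  by_cases a1 : j < 1000
  · exact bwdR_spec cert_70_1 j (by omega) (by omega)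
  by_cases a2 : j < 1500
  · exact bwdR_spec cert_70_2 j (by omega) (by omega)
  by_cases a3 : j < 2000
  · exact bwdR_spec cert_70_3 j (by omega) (by omega)
  by_cases a4 : j < 2500
  · exact bwdR_spec cert_70_4 j (by omega) (by omega)
  by_cases a5 : j < 3000
  · exact bwdR_spec cert_70_5 j (by omega) (by omega)
  by_cases a6 : j < 3500
  · exact bwdR_spec cert_70_6 j (by omega) (by omega)
  by_cases a7 : j < 4000
  · exact bwdR_spec cert_70_7 j (by omega) (by omega)
  by_cases a8 : j < 4500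
  · exact bwdR_spec cert_70_8 j (by omega) (by omega)
  by_cases a9 : j < 5000
  · exact bwdR_spec cert_70_9 j (by omega) (by omega)
  by_cases a10 : j < 5500
  · exact bwdR_spec cert_70_10 j (by omega) (by omega)
  exact bwdR_spec cert_70_11 j (by omega) (by omega)

def cert_73_0 : bwdR (clF 7) (nlF 7) (tbF 7 3) (clF 7) 0 500 = true := by decide +kernel
def cert_73_1 : bwdR (clF 7) (nlF 7) (tbF 7 3) (clF 7) 500 500 = true := by decide +kernel
def cert_73_2 : bwdR (clF 7) (nlF 7) (tbF 7 3) (clF 7) 1000 500 = true := by decide +kernel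
def cert_73_3 : bwdR (clF 7) (nlF 7) (tbF 7 3) (clF 7) 1500 500 = true := by decide +kernel
def cert_73_4 : bwdR (clF 7) (nlF 7) (tbF 7 3) (clF 7) 2000 500 = true := by decide +kernel
def cert_73_5 : bwdR (clF 7) (nlF 7) (tbF 7 3) (clF 7) 2500 500 = true := by decide +kernel
def cert_73_6 : bwdR (clF 7) (nlF 7) (tbF 7 3) (clF 7) 3000 500 = true := by decide +kernel
def cert_73_7 : bwdR (clF 7) (nlF 7) (tbF 7 3) (clF 7) 3500 500 = true := by decide +kernel
def cert_73_8 : bwdR (clF 7) (nlF 7) (tbF 7 3) (clF 7) 4000 500 = true := by decide +kernel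
def cert_73_9 : bwdR (clF 7) (nlF 7) (tbF 7 3) (clF 7) 4500 500 = true := by decide +kernel
def cert_73_10 : bwdR (clF 7) (nlF 7) (tbF 7 3) (clF 7) 5000 500 = true := by decide +kernel
def cert_73_11 : bwdR (clF 7) (nlF 7) (tbF 7 3) (clF 7) 5500 290 = true := by decide +kernel

theorem cert_73 (j : ℕ) (hj : j < 5790) : Bwd (clF 7) (nlF 7) (tbF 7 3) (clF 7) j := by
  by_cases a0 : j < 500
  · exact bwdR_spec cert_73_0 j (by omega) (by omega)
  by_cases a1 : j < 1000
  · exact bwdR_spec cert_73_1 j (by omega) (by omega)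
  by_cases a2 : j < 1500
  · exact bwdR_spec cert_73_2 j (by omega) (by omega)
  by_cases a3 : j < 2000
  · exact bwdR_spec cert_73_3 j (by omega) (by omega)
  by_cases a4 : j < 2500
  · exact bwdR_spec cert_73_4 j (by omega) (by omega)
  by_cases a5 : j < 3000
  · exact bwdR_spec cert_73_5 j (by omega) (by omega)
  by_cases a6 : j < 3500
  · exact bwdR_spec cert_73_6 j (by omega) (by omega)
  by_cases a7 : j < 4000
  · exact bwdR_spec cert_73_7 j (by omega) (by omega)
  by_cases a8 : j < 4500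
  · exact bwdR_spec cert_73_8 j (by omega) (by omega)
  by_cases a9 : j < 5000
  · exact bwdR_spec cert_73_9 j (by omega) (by omega)
  by_cases a10 : j < 5500
  · exact bwdR_spec cert_73_10 j (by omega) (by omega)
  exact bwdR_spec cert_73_11 j (by omega) (by omega)

end H44Shell
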