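import Pool.Agent.H44.ShellSplit

set_option linter.defProp false

namespace H44Shell

def cw0_0 : allSt dat ((wit0).take 16) (0) = true := by decide +kernel
def cw0_1 : allSt dat (((wit0).drop 16).take 16) (0 + 16) = true := by decide +kernel
def cw0_2 : allSt dat ((((wit0).drop 16).drop 16).take 16) (0 + 16 + 16) = true := by decide +kernel
def cw0_3 : allSt dat (((((wit0).drop 16).drop 16).drop 16).take 16) (0 + 16 + 16 + 16) = true := by decide +kernel
def cw0_4 : allSt dat ((((((wit0).drop 16).drop 16).drop 16).drop 16).take 16) (0 + 16 + 16 + 16 + 16) = true := by decide +kernel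
def cw0_5 : allSt dat (((((((wit0).drop 16).drop 16).drop 16).drop 16).drop 16).take 16) (0 + 16 + 16 + 16 + 16 + 16) = true := by decide +kernel
def cw0_6 : allSt dat ((((((((wit0).drop 16).drop 16).drop 16).drop 16).drop 16).drop 16).take 16) (0 + 16 + 16 + 16 + 16 + 16 + 16) = true := by decide +kernel
def cw0_7 : allSt dat ((((((((wit0).drop 16).drop 16).drop 16).drop 16).drop 16).drop 16).drop 16) (0 + 16 + 16 + 16 + 16 + 16 + 16 + 16) = true := by decide +kernel

theorem cert_w0 : allSt dat wit0 0 = true :=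
  allSt_split _ 16 _ _ cw0_0
    (allSt_split _ 16 _ _ cw0_1
    (allSt_split _ 16 _ _ cw0_2
    (allSt_split _ 16 _ _ cw0_3
    (allSt_split _ 16 _ _ cw0_4
    (allSt_split _ 16 _ _ cw0_5
    (allSt_split _ 16 _ _ cw0_6
    (cw0_7)))))))

def cw1_0 : allSt dat ((wit1).take 16) (128) = true := by decide +kernel
def cw1_1 : allSt dat (((wit1).drop 16).take 16) (128 + 16) = true := by decide +kernel
def cw1_2 : allSt dat ((((wit1).drop 16).drop 16).take 16) (128 + 16 + 16) = true := by decide +kernel
def cw1_3 : allSt dat (((((wit1).drop 16).drop 16).drop 16).take 16) (128 + 16 + 16 + 16) = true := by decide +kernel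
def cw1_4 : allSt dat ((((((wit1).drop 16).drop 16).drop 16).drop 16).take 16) (128 + 16 + 16 + 16 + 16) = true := by decide +kernel
def cw1_5 : allSt dat (((((((wit1).drop 16).drop 16).drop 16).drop 16).drop 16).take 16) (128 + 16 + 16 + 16 + 16 + 16) = true := by decide +kernel
def cw1_6 : allSt dat ((((((((wit1).drop 16).drop 16).drop 16).drop 16).drop 16).drop 16).take 16) (128 + 16 + 16 + 16 + 16 + 16 + 16) = true := by decide +kernel
def cw1_7 : allSt dat ((((((((wit1).drop 16).drop 16).drop 16).drop 16).drop 16).drop 16).drop 16) (128 + 16 + 16 + 16 + 16 + 16 + 16 + 16) = true := by decide +kernel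

theorem cert_w1 : allSt dat wit1 128 = true :=
  allSt_split _ 16 _ _ cw1_0
    (allSt_split _ 16 _ _ cw1_1
    (allSt_split _ 16 _ _ cw1_2
    (allSt_split _ 16 _ _ cw1_3
    (allSt_split _ 16 _ _ cw1_4
    (allSt_split _ 16 _ _ cw1_5
    (allSt_split _ 16 _ _ cw1_6
    (cw1_7)))))))

def cw2_0 : allSt dat ((wit2).take 16) (256) = true := by decide +kernel
def cw2_1 : allSt dat (((wit2).drop 16).take 16) (256 + 16) = true := by decide +kernel
def cw2_2 : allSt dat ((((wit2).drop 16).drop 16).take 16) (256 + 16 + 16) = true := by decide +kernel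
def cw2_3 : allSt dat (((((wit2).drop 16).drop 16).drop 16).take 16) (256 + 16 + 16 + 16) = true := by decide +kernel
def cw2_4 : allSt dat ((((((wit2).drop 16).drop 16).drop 16).drop 16).take 16) (256 + 16 + 16 + 16 + 16) = true := by decide +kernel
def cw2_5 : allSt dat (((((((wit2).drop 16).drop 16).drop 16).drop 16).drop 16).take 16) (256 + 16 + 16 + 16 + 16 + 16) = true := by decide +kernel
def cw2_6 : allSt dat ((((((((wit2).drop 16).drop 16).drop 16).drop 16).drop 16).drop 16).take 16) (256 + 16 + 16 + 16 + 16 + 16 + 16) = true := by decide +kernel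
def cw2_7 : allSt dat ((((((((wit2).drop 16).drop 16).drop 16).drop 16).drop 16).drop 16).drop 16) (256 + 16 + 16 + 16 + 16 + 16 + 16 + 16) = true := by decide +kernel

theorem cert_w2 : allSt dat wit2 256 = true :=
  allSt_split _ 16 _ _ cw2_0
    (allSt_split _ 16 _ _ cw2_1
    (allSt_split _ 16 _ _ cw2_2
    (allSt_split _ 16 _ _ cw2_3
    (allSt_split _ 16 _ _ cw2_4
    (allSt_split _ 16 _ _ cw2_5
    (allSt_split _ 16 _ _ cw2_6
    (cw2_7)))))))

end H44Shell
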