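import Pool.Agent.H44.ShellSplit

set_option linter.defProp false

namespace H44Shell

def cw3_0 : allSt dat ((wit3).take 16) (384) = true := by decide +kernel
def cw3_1 : allSt dat (((wit3).drop 16).take 16) (384 + 16) = true := by decide +kernel
def cw3_2 : allSt dat ((((wit3).drop 16).drop 16).take 16) (384 + 16 + 16) = true := by decide +kernel
def cw3_3 : allSt dat (((((wit3).drop 16).drop 16).drop 16).take 16) (384 + 16 + 16 + 16) = true := by decide +kernel
def cw3_4 : allSt dat ((((((wit3).drop 16).drop 16).drop 16).drop 16).take 16) (384 + 16 + 16 + 16 + 16) = true := by decide +kernel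
def cw3_5 : allSt dat (((((((wit3).drop 16).drop 16).drop 16).drop 16).drop 16).take 16) (384 + 16 + 16 + 16 + 16 + 16) = true := by decide +kernel
def cw3_6 : allSt dat ((((((((wit3).drop 16).drop 16).drop 16).drop 16).drop 16).drop 16).take 16) (384 + 16 + 16 + 16 + 16 + 16 + 16) = true := by decide +kernel
def cw3_7 : allSt dat ((((((((wit3).drop 16).drop 16).drop 16).drop 16).drop 16).drop 16).drop 16) (384 + 16 + 16 + 16 + 16 + 16 + 16 + 16) = true := by decide +kernel

theorem cert_w3 : allSt dat wit3 384 = true :=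
  allSt_split _ 16 _ _ cw3_0
    (allSt_split _ 16 _ _ cw3_1
    (allSt_split _ 16 _ _ cw3_2
    (allSt_split _ 16 _ _ cw3_3
    (allSt_split _ 16 _ _ cw3_4
    (allSt_split _ 16 _ _ cw3_5
    (allSt_split _ 16 _ _ cw3_6
    (cw3_7)))))))

def cw4_0 : allSt dat ((wit4).take 16) (512) = true := by decide +kernel
def cw4_1 : allSt dat (((wit4).drop 16).take 16) (512 + 16) = true := by decide +kernel
def cw4_2 : allSt dat ((((wit4).drop 16).drop 16).take 16) (512 + 16 + 16) = true := by decide +kernel
def cw4_3 : allSt dat (((((wit4).drop 16).drop 16).drop 16).take 16) (512 + 16 + 16 + 16) = true := by decide +kernel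
def cw4_4 : allSt dat ((((((wit4).drop 16).drop 16).drop 16).drop 16).take 16) (512 + 16 + 16 + 16 + 16) = true := by decide +kernel
def cw4_5 : allSt dat (((((((wit4).drop 16).drop 16).drop 16).drop 16).drop 16).take 16) (512 + 16 + 16 + 16 + 16 + 16) = true := by decide +kernel
def cw4_6 : allSt dat ((((((((wit4).drop 16).drop 16).drop 16).drop 16).drop 16).drop 16).take 16) (512 + 16 + 16 + 16 + 16 + 16 + 16) = true := by decide +kernel
def cw4_7 : allSt dat ((((((((wit4).drop 16).drop 16).drop 16).drop 16).drop 16).drop 16).drop 16) (512 + 16 + 16 + 16 + 16 + 16 + 16 + 16) = true := by decide +kernel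

theorem cert_w4 : allSt dat wit4 512 = true :=
  allSt_split _ 16 _ _ cw4_0
    (allSt_split _ 16 _ _ cw4_1
    (allSt_split _ 16 _ _ cw4_2
    (allSt_split _ 16 _ _ cw4_3
    (allSt_split _ 16 _ _ cw4_4
    (allSt_split _ 16 _ _ cw4_5
    (allSt_split _ 16 _ _ cw4_6
    (cw4_7)))))))

def cw5_0 : allSt dat ((wit5).take 16) (640) = true := by decide +kernel
def cw5_1 : allSt dat (((wit5).drop 16).take 16) (640 + 16) = true := by decide +kernel
def cw5_2 : allSt dat ((((wit5).drop 16).drop 16).take 16) (640 + 16 + 16) = true := by decide +kernel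
def cw5_3 : allSt dat (((((wit5).drop 16).drop 16).drop 16).take 16) (640 + 16 + 16 + 16) = true := by decide +kernel
def cw5_4 : allSt dat ((((((wit5).drop 16).drop 16).drop 16).drop 16).take 16) (640 + 16 + 16 + 16 + 16) = true := by decide +kernel
def cw5_5 : allSt dat (((((((wit5).drop 16).drop 16).drop 16).drop 16).drop 16).take 16) (640 + 16 + 16 + 16 + 16 + 16) = true := by decide +kernel
def cw5_6 : allSt dat ((((((((wit5).drop 16).drop 16).drop 16).drop 16).drop 16).drop 16).take 16) (640 + 16 + 16 + 16 + 16 + 16 + 16) = true := by decide +kernel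
def cw5_7 : allSt dat ((((((((wit5).drop 16).drop 16).drop 16).drop 16).drop 16).drop 16).drop 16) (640 + 16 + 16 + 16 + 16 + 16 + 16 + 16) = true := by decide +kernel

theorem cert_w5 : allSt dat wit5 640 = true :=
  allSt_split _ 16 _ _ cw5_0
    (allSt_split _ 16 _ _ cw5_1
    (allSt_split _ 16 _ _ cw5_2
    (allSt_split _ 16 _ _ cw5_3
    (allSt_split _ 16 _ _ cw5_4
    (allSt_split _ 16 _ _ cw5_5
    (allSt_split _ 16 _ _ cw5_6
    (cw5_7)))))))

def cw6_0 : allSt dat ((wit6).take 16) (768) = true := by decide +kernel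
def cw6_1 : allSt dat (((wit6).drop 16).take 16) (768 + 16) = true := by decide +kernel
def cw6_2 : allSt dat ((((wit6).drop 16).drop 16).take 16) (768 + 16 + 16) = true := by decide +kernel
def cw6_3 : allSt dat (((((wit6).drop 16).drop 16).drop 16).take 16) (768 + 16 + 16 + 16) = true := by decide +kernel
def cw6_4 : allSt dat ((((((wit6).drop 16).drop 16).drop 16).drop 16).take 16) (768 + 16 + 16 + 16 + 16) = true := by decide +kernel
def cw6_5 : allSt dat ((((((wit6).drop 16).drop 16).drop 16).drop 16).drop 16) (768 + 16 + 16 + 16 + 16 + 16) = true := by decide +kernel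

theorem cert_w6 : allSt dat wit6 768 = true :=
  allSt_split _ 16 _ _ cw6_0
    (allSt_split _ 16 _ _ cw6_1
    (allSt_split _ 16 _ _ cw6_2
    (allSt_split _ 16 _ _ cw6_3
    (allSt_split _ 16 _ _ cw6_4
    (cw6_5)))))

end H44Shell
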