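import Pool.Agent.H44.ShellGeo

namespace H44Shell

def perms : List (List ℕ) :=
  [[0,1,2,3],[0,1,3,2],[0,2,1,3],[0,2,3,1],[0,3,1,2],[0,3,2,1],[1,0,2,3],[1,0,3,2],[1,2,0,3],
   [1,2,3,0],[1,3,0,2],[1,3,2,0],[2,0,1,3],[2,0,3,1],[2,1,0,3],[2,1,3,0],[2,3,0,1],[2,3,1,0],
   [3,0,1,2],[3,0,2,1],[3,1,0,2],[3,1,2,0],[3,2,0,1],[3,2,1,0]]

def ap (s : List ℕ) (c : ℕ) : ℕ := s.getD c 0

theorem perms_ok : ∀ s ∈ perms, (∀ c < 4, ap s c < 4) ∧
    ∀ c < 4, ∀ d < 4, ap s c = ap s d → c = d := by decide

def trn {α : Type} : List α → List α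
  | [] => []
  | a :: l => l ++ [a]

theorem trn_eq {α : Type} (l : List α) : trn l = l.rotate 1 := by
  cases l <;> simp [trn]

def nxt (r : ℕ) (p : List ℕ) : List (List ℕ) :=
  if r = 0 then [trn p] else
    ([0,1,2,3].filter fun c => !(p.take r).contains c).map fun c => p.headD 0 :: c :: p.drop (r - 1)

def eqMap (s : List ℕ) : List ℕ → List ℕ → Bool
  | [], [] => true
  | a :: u, b :: q => Nat.beq (ap s a) b && eqMap s u q
  | _, _ => false

theorem eqMap_spec (s : List ℕ) : ∀ u q : List ℕ, eqMap s u q = true → u.map (ap s) = q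
  | [], [], _ => rfl
  | [], _ :: _, h => by simp [eqMap] at h
  | _ :: _, [], h => by simp [eqMap] at h
  | a :: u, b :: q, h => by
    simp only [eqMap, Bool.and_eq_true, Nat.beq_eq] at h
    rw [List.map_cons, h.1, eqMap_spec s u q h.2]

def stepOK (r : ℕ) (p q : List ℕ) : Bool :=
  (nxt r p).any fun u => perms.any fun s => eqMap s u q

noncomputable def chkRow (r : ℕ) (p : List ℕ) (qs : List (List ℕ)) : ℕ → Bool :=
  List.rec (fun m => Nat.beq m 0) (fun q _ ih m =>
    Bool.rec (motive := fun _ => Bool) (stepOK r p q && ih (Nat.div m 2)) (ih (Nat.div m 2))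
      (Nat.beq (Nat.mod m 2) 0)) qs

noncomputable def tabOK (r : ℕ) (qs : List (List ℕ)) : List ℕ → List (List ℕ) → Bool
  | [], _ => true
  | m :: ms, ps => chkRow r (ps.headD []) qs m && tabOK r qs ms ps.tail

theorem chkRow_spec (r : ℕ) (p : List ℕ) : ∀ (qs : List (List ℕ)) (m : ℕ), chkRow r p qs m = true →
    ∀ j, m.testBit j = true → stepOK r p (qs.getD j []) = true
  | [], m, h, j, hj => by
    have : m = 0 := Nat.eq_of_beq_eq_true h
    simp [this] at hj
  | q :: qs, m, h, j, hj => by
    have e : chkRow r p (q :: qs) m =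
        ((Nat.beq (m % 2) 0 || stepOK r p q) && chkRow r p qs (m / 2)) := by
      show Bool.rec (motive := fun _ => Bool) _ _ (Nat.beq (m % 2) 0) = _
      cases Nat.beq (m % 2) 0 <;> rfl
    simp only [e, Bool.and_eq_true, Bool.or_eq_true, Nat.beq_eq] at h
    cases j with
    | zero =>
      rw [Nat.testBit_zero] at hj
      rcases h.1 with h1 | h1
      · simp [h1] at hj
      · simpa using h1
    | succ j =>
      rw [Nat.testBit_succ] at hj
      simpa using chkRow_spec r p qs _ h.2 j hj

theorem tabOK_spec (r : ℕ) (qs : List (List ℕ)) : ∀ (t : List ℕ) (ps : List (List ℕ)),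
    tabOK r qs t ps = true → ∀ i j, (t.getD i 0).testBit j = true →
      stepOK r (ps.getD i []) (qs.getD j []) = true
  | [], ps, _, i, j, hj => by simp at hj
  | m :: ms, ps, h, i, j, hj => by
    simp only [tabOK, Bool.and_eq_true] at h
    cases i with
    | zero =>
      have := chkRow_spec r _ qs m h.1 j (by simpa using hj)
      cases ps <;> simpa using this
    | succ i =>
      have := tabOK_spec r qs ms _ h.2 i j (by simpa using hj)
      cases ps <;> simpa using this

noncomputable def img (t : List ℕ) : ℕ → ℕ :=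
  List.rec (fun _ => 0) (fun m _ ih S => Bool.rec (motive := fun _ => ℕ) (ih (Nat.div S 2))
    (Nat.lor m (ih (Nat.div S 2))) (Nat.beq (Nat.mod S 2) 1)) t

theorem img_spec : ∀ (t : List ℕ) (S j : ℕ), (img t S).testBit j = true →
    ∃ i, S.testBit i = true ∧ (t.getD i 0).testBit j = true
  | [], S, j, h => by
    have : img [] S = 0 := rfl
    simp [this] at h
  | m :: t, n, j, h => by
    have e : img (m :: t) n = cond (Nat.beq (n % 2) 1) (m ||| img t (n / 2)) (img t (n / 2)) := by
      show Bool.rec (motive := fun _ => ℕ) _ _ (Nat.beq (n % 2) 1) = _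
      cases Nat.beq (n % 2) 1 <;> rfl
    have rest : (img t (n / 2)).testBit j = true →
        ∃ i, n.testBit i = true ∧ ((m :: t).getD i 0).testBit j = true := by
      intro h
      obtain ⟨i, h1, h2⟩ := img_spec t _ j h
      exact ⟨i + 1, by rw [Nat.testBit_succ]; exact h1, by simpa using h2⟩
    rw [e] at h
    cases hb : Nat.beq (n % 2) 1 with
    | false => rw [hb] at h; exact rest h
    | true =>
      rw [hb] at h
      have hn : n % 2 = 1 := Nat.eq_of_beq_eq_true hb
      simp only [cond_true, Nat.testBit_or, Bool.or_eq_true] at h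
      rcases h with h | h
      · exact ⟨0, by rw [Nat.testBit_zero]; simp [hn], by simpa using h⟩
      · exact rest h

noncomputable def cov (l : List (ℕ × ℕ)) (j : ℕ) : ℕ :=
  List.rec 0 (fun e _ ih =>
    cond (Nat.beq (Nat.land 1 (Nat.shiftRight e.2 j)) 0) (Nat.lor e.1 ih) ih) l

theorem cov_spec (j' j : ℕ) : ∀ (l : List (ℕ × ℕ)), (cov l j').testBit j = false →
    ∀ e ∈ l, e.1.testBit j = true → e.2.testBit j' = true
  | [], _, e, he, _ => by simp at he
  | a :: l, h, e, he, h1 => by
    have eq : cov (a :: l) j' = cond (Nat.beq (1 &&& (a.2 >>> j')) 0) (a.1 ||| cov l j')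
      (cov l j') := rfl
    rw [eq] at h
    cases hb : Nat.beq (1 &&& (a.2 >>> j')) 0 with
    | true =>
      rw [hb] at h
      simp only [cond_true, Nat.testBit_or, Bool.or_eq_false_iff] at h
      rcases List.mem_cons.1 he with he | he
      · subst he; simp [h.1] at h1
      · exact cov_spec j' j l h.2 e he h1
    | false =>
      rw [hb] at h
      rcases List.mem_cons.1 he with he | he
      · subst he
        have := Nat.ne_of_beq_eq_false hb
        simpa [Nat.testBit] using this
      · exact cov_spec j' j l h e he h1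

noncomputable def fN (n : ℕ) (k : ℕ → Bool) : Bool := Nat.rec (k 0) (fun m _ => k m) (Nat.add n 1)

theorem fN_eq (n : ℕ) (k : ℕ → Bool) : fN n k = k n := rfl

noncomputable def fL (l : List ℕ) : (List ℕ → Bool) → Bool :=
  List.rec (fun k => k []) (fun a _ ih k => fN a fun a => ih fun l => k (a :: l)) l

theorem fL_eq : ∀ (l : List ℕ) (k : List ℕ → Bool), fL l k = k l
  | [], _ => rfl
  | a :: l, k => by
    have : fL (a :: l) k = fN a fun a => fL l fun l => k (a :: l) := rfl
    rw [this, fN_eq, fL_eq l]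

noncomputable def fP (l : List (ℕ × ℕ)) : (List (ℕ × ℕ) → Bool) → Bool :=
  List.rec (fun k => k []) (fun e _ ih k => fN e.1 fun a => fN e.2 fun b =>
    ih fun l => k ((a, b) :: l)) l

theorem fP_eq : ∀ (l : List (ℕ × ℕ)) (k : List (ℕ × ℕ) → Bool), fP l k = k l
  | [], _ => rfl
  | e :: l, k => by
    have : fP (e :: l) k = fN e.1 fun a => fN e.2 fun b => fP l fun l => k ((a, b) :: l) := rfl
    rw [this, fN_eq, fN_eq, fP_eq l]

noncomputable def allBelow (f : ℕ → Bool) (n : ℕ) : Bool :=
  Nat.rec true (fun m ih => cond (f m) ih false) n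

theorem allBelow_spec (f : ℕ → Bool) : ∀ n, allBelow f n = true → ∀ m < n, f m = true
  | 0, _, m, hm => by omega
  | n + 1, h, m, hm => by
    have e : allBelow f (n + 1) = cond (f n) (allBelow f n) false := rfl
    rw [e] at h
    cases hf : f n with
    | false => simp [hf] at h
    | true =>
      rw [hf] at h
      rcases Nat.lt_succ_iff_lt_or_eq.1 hm with h1 | h1
      · exact allBelow_spec f n h m h1
      · exact h1 ▸ hf

noncomputable def mkP (c' : List ℕ) : List ℕ → List ℕ → List (ℕ × ℕ)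
  | [], _ => []
  | c :: cs, t => (c, img c' (t.headD 0)) :: mkP c' cs t.tail

theorem mkP_spec (c' : List ℕ) : ∀ (cs t : List ℕ) (i : ℕ),
    cs.getD i 0 = 0 ∨ (cs.getD i 0, img c' (t.getD i 0)) ∈ mkP c' cs t
  | [], _, _ => by simp
  | c :: cs, t, 0 => by cases t <;> simp [mkP]
  | c :: cs, t, i + 1 => by
    rcases mkP_spec c' cs t.tail i with h | h
    · left; simpa using h
    · right
      cases t
      · simp only [mkP, List.mem_cons]; right; simpa using h
      · simp only [mkP, List.mem_cons]; right; simpa using h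

noncomputable def bwdR (c : List ℕ) (n : ℕ) (t c' : List ℕ) (lo len : ℕ) : Bool :=
  fP (mkP c' c t) fun l => fN (2 ^ n - 1) fun full =>
    allBelow (fun m => fN (lo + m) fun j' => !(Nat.beq (Nat.land (cov l j') full) full)) len

def Bwd (c : List ℕ) (n : ℕ) (t c' : List ℕ) (j' : ℕ) : Prop :=
  ∃ j < n, ∀ i, (c.getD i 0).testBit j = true →
    ∃ i', (t.getD i 0).testBit i' = true ∧ (c'.getD i' 0).testBit j' = true

theorem bwdR_spec {c : List ℕ} {n : ℕ} {t c' : List ℕ} {lo len : ℕ}
    (h : bwdR c n t c' lo len = true) (j' : ℕ) (hj0 : lo ≤ j') (hj : j' < lo + len) :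
    Bwd c n t c' j' := by
  rw [bwdR, fP_eq, fN_eq] at h
  have h1 := allBelow_spec _ _ h (j' - lo) (by omega)
  rw [fN_eq, show lo + (j' - lo) = j' by omega] at h1
  have h2 : cov (mkP c' c t) j' &&& (2 ^ n - 1) ≠ 2 ^ n - 1 := by
    apply Nat.ne_of_beq_eq_false
    simpa using h1
  have : ∃ j < n, (cov (mkP c' c t) j').testBit j = false := by
    by_contra hno
    push Not at hno
    apply h2
    apply Nat.eq_of_testBit_eq
    intro i
    rw [Nat.testBit_and, Nat.testBit_two_pow_sub_one]
    by_cases hi : i < n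
    · have := hno i hi
      simp at this
      simp [hi, this]
    · simp [hi]
  obtain ⟨j, hjn, hc⟩ := this
  refine ⟨j, hjn, fun i hi => ?_⟩
  rcases mkP_spec c' c t i with h0 | h0
  · rw [h0] at hi; simp at hi
  · exact img_spec _ _ _ (cov_spec j' j _ hc _ h0 hi)

def free (p : List ℕ) : Bool := [0,1,2,3].any fun c => !p.contains c

def clo (ps : List (List ℕ)) : List ℕ := ps.map fun p => cond (free p) 1 0

theorem clo_spec : ∀ (ps : List (List ℕ)) (i j : ℕ), ((clo ps).getD i 0).testBit j = true →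
    free (ps.getD i []) = true
  | [], i, j, h => by simp [clo] at h
  | p :: ps, 0, j, h => by
    cases hf : free p with
    | true => simpa using hf
    | false => simp [clo, hf] at h
  | p :: ps, i + 1, j, h => by
    have := clo_spec ps i j (by simpa [clo] using h)
    simpa using this

structure St where
  need : List ℕ
  ch : List (ℕ × ℕ)
  S : ℕ

structure Data where
  pt : ℕ → List (List ℕ)
  tb : ℕ → ℕ → List ℕ
  cl : ℕ → List ℕ
  nl : ℕ → ℕ
  st : ℕ → St
  ns : ℕ

noncomputable def fS (s : St) (k : St → Bool) : Bool :=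
  fL s.need fun a => fP s.ch fun b => fN s.S fun c => k ⟨a, b, c⟩

theorem fS_eq (s : St) (k : St → Bool) : fS s k = k s := by
  rw [fS, fL_eq, fP_eq, fN_eq]

def rotE (k : ℕ) (e : ℕ × ℕ) : ℕ × ℕ := cond (Nat.beq e.1 0) (e.2, k - e.2 - 2) (e.1 - 1, e.2)

noncomputable def rotS (d : Data) (s : St) : St :=
  ⟨trn s.need, s.ch.map (rotE s.need.length), img (d.tb s.need.length 0) s.S⟩

def forb (s : St) (r : ℕ) : Bool :=
  (s.need.tail.take (r - 2)).any (fun n => Nat.ble 2 n) ||
    s.ch.any fun e => Nat.ble 1 e.2 && Nat.ble (e.1 + e.2 + 2) r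

def addE (r : ℕ) (e : ℕ × ℕ) : Option (ℕ × ℕ) :=
  cond (Nat.beq e.1 0) (cond (Nat.ble r (e.2 + 2)) (some (0, e.2 + 3 - r)) none)
    (cond (Nat.ble r (e.1 + 1)) (some (e.1 + 3 - r, e.2)) none)

noncomputable def addS (d : Data) (s : St) (r : ℕ) : St :=
  ⟨(s.need.headD 0 - 1) :: (5 - r) :: ((s.need.drop (r - 1)).headD 0 - 1) :: s.need.drop r,
    (0, 0) :: (1, 0) :: s.ch.filterMap (addE r), img (d.tb s.need.length r) s.S⟩

def leL : List ℕ → List ℕ → Bool
  | [], [] => true
  | a :: l, b :: m => Nat.ble a b && leL l m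
  | _, _ => false

def dom (a b : St) : Bool :=
  Nat.beq (Nat.land a.S b.S) a.S && leL a.need b.need &&
    a.ch.all fun e => b.ch.any fun f => Nat.beq e.1 f.1 && Nat.beq e.2 f.2

noncomputable def closeOK (d : Data) (s : St) : Bool :=
  Nat.ble s.need.length 4 || s.need.any (fun n => Nat.ble 2 n) ||
    s.ch.any (fun e => Nat.ble 1 e.2 && Nat.ble (e.2 + 3) s.need.length) ||
    Nat.beq (img (clo (d.pt s.need.length)) s.S) 1

noncomputable def domR (d : Data) (a : St) (q : ℕ) : St → Bool :=
  Nat.rec (fun t => dom a t) (fun _ ih t => fS (rotS d t) ih) q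

noncomputable def absorb (d : Data) (k S : ℕ) : Bool :=
  Nat.beq (Nat.land (img (d.cl k) S) (2 ^ d.nl k - 1)) (2 ^ d.nl k - 1)

noncomputable def chkStep (d : Data) (s : St) (r w : ℕ) : Bool :=
  Nat.ble s.need.length r || Nat.ble (r + 5) s.need.length || forb s r ||
    cond (Nat.beq w 0) (absorb d (s.need.length + 3 - r) (addS d s r).S)
      (Nat.ble (w / 8) d.ns && Nat.ble 1 (w / 8) &&
        fS (d.st (w / 8 - 1)) fun a => fS (addS d s r) (domR d a (w % 8)))

noncomputable def chkPos (d : Data) (s : St) (W : ℕ) : Bool :=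
  [2,3,4,5,6].all fun r => chkStep d s r ((W >>> (14 * (r - 2))) % 16384)

noncomputable def loop (d : Data) (n : ℕ) : St → ℕ → Bool :=
  Nat.rec (fun _ _ => true) (fun _ ih s W => fS (rotS d s) fun t => fN W fun W =>
    chkPos d t W && ih t (W >>> 70)) n

noncomputable def chkSt (d : Data) (s : St) (W : ℕ) : Bool :=
  fS s fun s => closeOK d s && loop d s.need.length s W

noncomputable def allSt (d : Data) : List ℕ → ℕ → Bool
  | [], _ => true
  | W :: ws, i => fN i fun i => chkSt d (d.st i) W && allSt d ws (i + 1)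

theorem allSt_spec (d : Data) : ∀ (ws : List ℕ) (i0 : ℕ), allSt d ws i0 = true →
    ∀ i, i0 ≤ i → i < i0 + ws.length → ∃ W, chkSt d (d.st i) W = true
  | [], i0, _, i, h1, h2 => by simp at h2; omega
  | W :: ws, i0, h, i, h1, h2 => by
    rw [allSt, fN_eq, Bool.and_eq_true] at h
    rcases Nat.eq_or_lt_of_le h1 with e | e
    · exact ⟨W, e ▸ h.1⟩
    · exact allSt_spec d ws _ h.2 i e (by simp at h2; omega)

theorem loop_spec (d : Data) : ∀ (n : ℕ) (s : St) (W : ℕ), loop d n s W = true →
    ∀ p < n, ∃ W', chkPos d ((rotS d)^[p + 1] s) W' = true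
  | 0, _, _, _, p, hp => by omega
  | n + 1, s, W, h, p, hp => by
    have e : loop d (n + 1) s W = fS (rotS d s) fun t => fN W fun W =>
      chkPos d t W && loop d n t (W >>> 70) := rfl
    rw [e, fS_eq, fN_eq, Bool.and_eq_true] at h
    cases p with
    | zero => exact ⟨W, h.1⟩
    | succ p =>
      obtain ⟨W', h'⟩ := loop_spec d n _ _ h.2 p (by omega)
      exact ⟨W', by rw [Function.iterate_succ_apply]; exact h'⟩

theorem domR_spec (d : Data) (a : St) : ∀ (q : ℕ) (t : St), domR d a q t = true →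
    dom a ((rotS d)^[q] t) = true
  | 0, _, h => h
  | q + 1, t, h => by
    have e : domR d a (q + 1) t = fS (rotS d t) (domR d a q) := rfl
    rw [e, fS_eq] at h
    rw [Function.iterate_succ_apply]
    exact domR_spec d a q _ h

end H44Shell
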