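import Mathlib

namespace H44Shell

/-- More than four vertices, and connected after deleting any three vertices. -/
def FourConnected {V : Type} (T : SimpleGraph V) : Prop :=
  4 < Nat.card V ∧ ∀ S : Set V, S.ncard = 3 → (T.induce Sᶜ).Connected

/-- `Shell T K D R`: `D` is the vertex set of a disc with boundary cycle `R` (a list read
cyclically), and the rest of `T` is obtained by adding vertices one at a time outside the disc,
every boundary cycle having at most `K` vertices.
* `turn`: the starting point of the boundary list may be moved.
* `add`: a new vertex `z` is joined, among the vertices already present, exactly to a path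
  `a, P, b` of at least two consecutive boundary vertices (not the whole boundary); the new
  boundary has `z` in place of `P`.
* `close`: the last vertex `z` is joined, exactly, to the whole boundary. -/
inductive Shell {V : Type} (T : SimpleGraph V) (K : ℕ) : Set V → List V → Prop
  | close (D : Set V) (R : List V) (z : V) :
      R.length ≤ K → z ∉ D → (∀ w, w ∈ D ∨ w = z) → (∀ w ∈ D, T.Adj z w ↔ w ∈ R) →
      Shell T K D R
  | turn (D : Set V) (a : V) (R : List V) :
      Shell T K D (R ++ [a]) → Shell T K D (a :: R)
  | add (D : Set V) (a b z : V) (P R : List V) :
      (a :: (P ++ b :: R)).length ≤ K → R ≠ [] → z ∉ D →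
      (∀ w ∈ D, T.Adj z w ↔ w ∈ a :: (P ++ [b])) →
      Shell T K (insert z D) (a :: z :: b :: R) → Shell T K D (a :: (P ++ b :: R))

end H44Shell
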