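import Pool.Agent.H44.ShellMain

namespace H44Shell

theorem final {d : Data} (hd : Good d) (h0 : 0 < d.ns) (e1 : (d.st 0).need = [0, 0, 0, 0])
    (e2 : (d.st 0).ch = [(0, 2), (0, 0), (1, 0), (2, 0), (1, 1)]) (e3 : (d.st 0).S = 2 ^ 3)
    (e4 : (d.pt 4).getD 3 [] = [0, 1, 2, 3])
    {V : Type} [Finite V] (T : SimpleGraph V) (x u y v : V) (hT : FourConnected T)
    (hxu : T.Adj x u) (huy : T.Adj u y) (hyv : T.Adj y v) (hvx : T.Adj v x) (huv : T.Adj u v)
    (hxy : x ≠ y) (hn : ¬ T.Adj x y) (hS : Shell T 7 {x, u, y, v} [x, u, y, v])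
    (hcol : ¬ (T ⊔ SimpleGraph.edge x y).Colorable 4) :
    ∃ w, w ≠ x ∧ w ≠ y ∧ w ≠ u ∧ w ≠ v ∧
      ((T ⊔ SimpleGraph.edge x y).neighborSet w).ncard = 4 := by
  classical
  by_contra hno
  push Not at hno
  have n1 := hxu.ne
  have n2 := huy.ne
  have n3 := hyv.ne
  have n4 := hvx.ne
  have n5 := huv.ne
  have h5 : ∀ w ∉ ({x, u, y, v} : Set V), 5 ≤ (T.neighborSet w).ncard := by
    intro w hw
    simp only [Set.mem_insert_iff, Set.mem_singleton_iff, not_or] at hw
    have := hno w hw.1 hw.2.2.1 hw.2.1 hw.2.2.2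
    have e : (T ⊔ SimpleGraph.edge x y).neighborSet w = T.neighborSet w := by
      ext q; simp [SimpleGraph.edge_adj, hw.1, hw.2.2.1]
    rw [e] at this
    have := min_deg hT w
    omega
  have hg : Geo T {x, u, y, v} [x, u, y, v] := by
    refine ⟨by simp [n1, n2, n3, n4.symm, n5, hxy], by simp, ?_⟩
    intro l0 a l1 b l2 he hab
    rcases l1 with _ | ⟨c, l1⟩
    · exact ⟨∅, by simp, by simp, by simp, by simp, by simp, by simp, by simp⟩
    rcases l0 with _ | ⟨c0, _ | ⟨c1, l0⟩⟩
    · rcases l1 with _ | ⟨c2, l1⟩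
      · simp at he
        obtain ⟨rfl, rfl, rfl, -⟩ := he
        exact absurd hab hn
      · rcases l1 with _ | ⟨c3, l1⟩
        · simp at he
          obtain ⟨rfl, rfl, rfl, rfl, rfl⟩ := he
          refine ⟨{u, y}, by intro w; simp; tauto, by simp [n1, hxy], by simp [n3.symm, n5.symm],
            by simp, by simp, by simp, ?_⟩
          intro p _ q hq _
          simp at hq ⊢; tauto
        · simp at he
    · rcases l1 with _ | ⟨c2, l1⟩
      · simp at he
        obtain ⟨rfl, rfl, rfl, rfl, rfl⟩ := he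
        refine ⟨{y}, by simp, by simp [n2], by simp [n3.symm], by simp, by simp [hxy], by simp, ?_⟩
        intro p hp q hq hpq
        simp at hp hq ⊢
        subst hp
        rcases hq with h | h
        · subst h; exact absurd hpq.symm hn
        · tauto
      · simp at he
    · have := congrArg List.length he
      simp at this
      omega
  have hm : Match T x y d (d.st 0) {x, u, y, v} ([x, u, y, v].rotate 0) := by
    rw [List.rotate_zero]
    refine ⟨by rw [e1]; simp, ?_, ?_⟩
    · rw [e2]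
      intro e he
      simp only [List.mem_cons, List.not_mem_nil, or_false] at he
      rcases he with rfl | rfl | rfl | rfl | rfl
      · exact ⟨[], x, [u, y], v, [], rfl, rfl, rfl, hvx.symm⟩
      · exact ⟨[], x, [], u, [y, v], rfl, rfl, rfl, hxu⟩
      · exact ⟨[x], u, [], y, [v], rfl, rfl, rfl, huy⟩
      · exact ⟨[x, u], y, [], v, [], rfl, rfl, rfl, hyv⟩
      · exact ⟨[x], u, [y], v, [], rfl, rfl, rfl, huv⟩
    · intro i hi
      rw [e3, Nat.testBit_two_pow] at hi
      have hi : 3 = i := by simpa using hi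
      subst hi
      rw [show [x, u, y, v].length = 4 from rfl, e4]
      refine ⟨fun w => if w = x then 0 else if w = u then 1 else if w = y then 2 else 3,
        ⟨fun w => by dsimp only; split_ifs <;> omega, ?_, by simp [hxy.symm, n2.symm]⟩,
        by simp [n1.symm, hxy.symm, n2.symm, n4, n5.symm, n3.symm]⟩
      intro a ha b hb hab
      have := hab.ne
      simp only [Set.mem_insert_iff, Set.mem_singleton_iff] at ha hb
      rcases ha with rfl | rfl | rfl | rfl <;> rcases hb with rfl | rfl | rfl | rfl <;>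
        simp_all [eq_comm]
  obtain ⟨f, g1, g2, g3⟩ := forward hT hd hS hg (by simp) (by simp) (by simp) h5 ⟨0, h0, 0, hm⟩
  apply hcol
  refine ⟨SimpleGraph.Coloring.mk (fun w => (⟨f w, g1 w⟩ : Fin 4)) ?_⟩
  intro a b hab e
  have e : f a = f b := congrArg Fin.val e
  rcases hab with h | h
  · exact g2 a trivial b trivial h e
  · rcases ((SimpleGraph.edge_adj _ _ _ _).1 h).1 with ⟨rfl, rfl⟩ | ⟨rfl, rfl⟩
    · exact g3 e
    · exact g3 e.symm

end H44Shell
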