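import Pool.Agent.H44.ShellDefs

namespace H44Shell
variable {V : Type} {T : SimpleGraph V} {K : ℕ}

theorem Shell.len {D : Set V} {R : List V} (h : Shell T K D R) : R.length ≤ K := by
  induction h with
  | close D R z h => exact h
  | turn D a R _ ih => simpa using ih
  | add D a b z P R h => exact h

theorem Shell.closed {D : Set V} {R : List V} (h : Shell T K D R) :
    ∀ w ∈ D, w ∉ R → ∀ q, T.Adj w q → q ∈ D := by
  induction h with
  | close D R z _ hz hall hadj =>
    intro w hw hR q hq
    rcases hall q with h | h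
    · exact h
    · subst h; exact absurd ((hadj w hw).1 hq.symm) hR
  | turn D a R _ ih =>
    intro w hw hR
    exact ih w hw (by simp at hR ⊢; tauto)
  | add D a b z P R _ _ hz hadj _ ih =>
    intro w hw hR q hq
    have hwz : w ≠ z := fun e => hz (e ▸ hw)
    have := ih w (Set.mem_insert_of_mem _ hw) (by simp at hR ⊢; tauto) q hq
    rcases this with h | h
    · subst h
      have := (hadj w hw).1 hq.symm
      exact absurd (by simp at this ⊢; tauto) hR
    · exact h

theorem cut (h4 : FourConnected T) (a b z : V) (hab : a ≠ b) (haz : a ≠ z) (hbz : b ≠ z)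
    (A : Set V) (hcl : ∀ p ∈ A, ∀ q, T.Adj p q → q ∈ A ∨ q = a ∨ q = b ∨ q = z)
    (p0 q0 : V) (hp : p0 ∈ A) (hpS : p0 ∉ ({a, b, z} : Set V)) (hq : q0 ∉ A)
    (hqS : q0 ∉ ({a, b, z} : Set V)) : False := by
  have hc := h4.2 {a, b, z} (Set.ncard_eq_three.2 ⟨a, b, z, hab, haz, hbz, rfl⟩)
  obtain ⟨w⟩ := hc.preconnected ⟨p0, hpS⟩ ⟨q0, hqS⟩
  have key : ∀ (s t : ↥(({a, b, z} : Set V)ᶜ)) (_ : (T.induce ({a, b, z} : Set V)ᶜ).Walk s t),
      s.1 ∈ A → t.1 ∈ A := by
    intro s t w
    induction w with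
    | nil => exact id
    | @cons s m t hsm _ ih =>
      intro hs
      apply ih
      have hm := m.2
      rcases hcl s.1 hs m.1 hsm with h | h
      · exact h
      · exact absurd (by simpa using h) hm
  exact hq (key _ _ w hp)

/-- Geometric invariant of a disc with boundary list `R`. -/
def Geo (T : SimpleGraph V) (D : Set V) (R : List V) : Prop :=
  R.Nodup ∧ (∀ w ∈ R, w ∈ D) ∧
  ∀ (l0 : List V) (a : V) (l1 : List V) (b : V) (l2 : List V),
    R = l0 ++ a :: (l1 ++ b :: l2) → T.Adj a b →
    ∃ A : Set V, A ⊆ D ∧ a ∉ A ∧ b ∉ A ∧ (∀ w ∈ l1, w ∈ A) ∧ (∀ w ∈ l0, w ∉ A) ∧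
      (∀ w ∈ l2, w ∉ A) ∧ ∀ p ∈ A, ∀ q ∈ D, T.Adj p q → q ∈ A ∨ q = a ∨ q = b

theorem Geo.turn {D : Set V} {a0 : V} {R : List V} (h : Geo T D (a0 :: R)) :
    Geo T D (R ++ [a0]) := by
  obtain ⟨hnd, hD, hs⟩ := h
  have hnd' : (R ++ [a0]).Nodup := (List.perm_append_singleton a0 R).nodup_iff.2 hnd
  refine ⟨hnd', fun w hw => hD w (by simp at hw ⊢; tauto), ?_⟩
  intro l0 a l1 b l2 he hab
  rcases List.eq_nil_or_concat l2 with h2 | ⟨l2', c, h2⟩
  · subst h2
    have he' : R ++ [a0] = (l0 ++ a :: l1) ++ [b] := by simp [he]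
    obtain ⟨e1, e2⟩ := List.append_inj' he' rfl
    have e3 : a0 = b := by simpa using e2
    subst e3
    obtain ⟨A, hA, h1, h2, h3, -, h5, h6⟩ := hs [] a0 l0 a l1 (by simp [e1]) hab.symm
    rw [e1] at hnd hD
    refine ⟨D \ (A ∪ {a, a0}), fun w hw => hw.1, by simp, by simp, ?_, ?_, by simp, ?_⟩
    · intro w hw
      refine ⟨hD w (by simp [hw]), ?_⟩
      have := h5 w hw
      simp only [List.nodup_cons, List.nodup_append, List.mem_append, List.mem_cons] at hnd
      simp only [Set.mem_union, Set.mem_insert_iff, Set.mem_singleton_iff]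
      rintro (h | h | h)
      · exact this h
      · subst h; exact hnd.2.2.1.1 hw
      · subst h; exact hnd.1 (Or.inr (Or.inr hw))
    · intro w hw h
      exact h.2 (Or.inl (h3 w hw))
    · intro p hp q hq hpq
      by_cases hqA : q ∈ A
      · rcases h6 q hqA p hp.1 hpq.symm with h | h | h
        · exact absurd (Or.inl h) hp.2
        · exact absurd (Or.inr (by simp [h])) hp.2
        · exact absurd (Or.inr (by simp [h])) hp.2
      · by_cases h1 : q = a
        · exact Or.inr (Or.inl h1)
        · by_cases h2 : q = a0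
          · exact Or.inr (Or.inr h2)
          · exact Or.inl ⟨hq, by simp [hqA, h1, h2]⟩
  · subst h2
    have he' : R ++ [a0] = (l0 ++ a :: (l1 ++ b :: l2')) ++ [c] := by simp [he]
    obtain ⟨e1, e2⟩ := List.append_inj' he' rfl
    have e3 : a0 = c := by simpa using e2
    subst e3
    obtain ⟨A, hA, h1, h2, h3, h4, h5, h6⟩ := hs (a0 :: l0) a l1 b l2' (by simp [e1]) hab
    refine ⟨A, hA, h1, h2, h3, fun w hw => h4 w (by simp [hw]), ?_, h6⟩
    intro w hw
    simp at hw
    rcases hw with hw | hw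
    · exact h5 w hw
    · exact h4 w (by simp [hw])

theorem Geo.add {D : Set V} {a0 b0 z : V} {P R : List V} (h : Geo T D (a0 :: (P ++ b0 :: R)))
    (hz : z ∉ D) (hadj : ∀ w ∈ D, T.Adj z w ↔ w ∈ a0 :: (P ++ [b0])) :
    Geo T (insert z D) (a0 :: z :: b0 :: R) := by
  obtain ⟨hnd, hD, hs⟩ := h
  have hne : ∀ w ∈ D, w ≠ z := fun w hw e => hz (e ▸ hw)
  have hnd0 := hnd
  simp only [List.nodup_cons, List.nodup_append, List.mem_append, List.mem_cons] at hnd
  refine ⟨?_, ?_, ?_⟩
  · have h1 := hne a0 (hD _ (by simp))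
    have h2 := hne b0 (hD _ (by simp))
    have h3 : z ∉ R := fun h => hz (hD _ (by simp [h]))
    simp only [List.nodup_cons, List.mem_cons]
    refine ⟨?_, ?_, hnd.2.2.1⟩
    · rintro (h | h)
      · exact h1 h
      · exact hnd.1 (Or.inr h)
    · rintro (h | h)
      · exact h2 h.symm
      · exact h3 h
  · intro w hw
    simp only [List.mem_cons] at hw
    rcases hw with h | h | h
    · exact Or.inr (hD w (by simp [h]))
    · exact Or.inl h
    · exact Or.inr (hD w (by simp only [List.mem_cons, List.mem_append]; tauto))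
  intro l0 a l1 b l2 he hab
  rcases l1 with _ | ⟨c, l1⟩
  · exact ⟨∅, by simp, by simp, by simp, by simp, by simp, by simp, by simp⟩
  rcases l0 with _ | ⟨c0, _ | ⟨c1, l0⟩⟩
  · simp only [List.nil_append, List.cons_append, List.cons.injEq] at he
    obtain ⟨e1, e2, e3⟩ := he
    subst e1 e2
    obtain ⟨A, hA, h1, h2, h3, -, h5, h6⟩ := hs [] a0 (P ++ l1) b l2 (by simp [e3]) hab
    have hb : b ∈ D := hD b (by simp [e3])
    refine ⟨insert z A, Set.insert_subset_insert hA, ?_, ?_, ?_, by simp, ?_, ?_⟩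
    · rintro (h | h)
      · exact hne a0 (hD _ (by simp)) h
      · exact h1 h
    · rintro (h | h)
      · exact hne b hb h
      · exact h2 h
    · intro w hw
      rcases List.mem_cons.1 hw with h | h
      · exact Or.inl h
      · exact Or.inr (h3 w (by simp [h]))
    · rintro w hw (h | h)
      · exact hne w (hD w (by simp [e3, hw])) h
      · exact h5 w hw h
    · rintro p hp q (hq | hq) hpq
      · exact Or.inl (Or.inl hq)
      · rcases hp with hp | hp
        · subst hp
          have := (hadj q hq).1 hpq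
          simp only [List.mem_cons, List.mem_append, List.not_mem_nil, or_false] at this
          rcases this with h | h | h
          · exact Or.inr (Or.inl h)
          · exact Or.inl (Or.inr (h3 q (by simp [h])))
          · subst h
            rcases l1 with _ | ⟨d, l1⟩
            · simp at e3; exact Or.inr (Or.inr e3.1)
            · simp at e3; exact Or.inl (Or.inr (h3 q (by simp [e3.1])))
        · rcases h6 p hp q hq hpq with h | h
          · exact Or.inl (Or.inr h)
          · exact Or.inr h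
  · simp only [List.nil_append, List.cons_append, List.cons.injEq] at he
    obtain ⟨e1, e2, e3, e4⟩ := he
    subst e1 e2 e3
    have hbR : b ∈ R := by simp [e4]
    have := (hadj b (hD b (by simp [hbR]))).1 hab
    simp only [List.mem_cons, List.mem_append, List.not_mem_nil, or_false] at this
    exfalso
    rcases this with h | h | h
    · subst h; exact hnd.1 (Or.inr (Or.inr hbR))
    · exact hnd.2.2.2 b h b (Or.inr hbR) rfl
    · subst h; exact hnd.2.2.1.1 hbR
  · simp only [List.cons_append, List.cons.injEq] at he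
    obtain ⟨e1, e2, e3⟩ := he
    subst e1 e2
    obtain ⟨A, hA, h1, h2, h3, h4, h5, h6⟩ :=
      hs (a0 :: (P ++ l0)) a (c :: l1) b l2 (by simp [e3]) hab
    refine ⟨A, hA.trans (Set.subset_insert _ _), h1, h2, h3, ?_, h5, ?_⟩
    · intro w hw
      simp only [List.mem_cons] at hw
      rcases hw with h | h | h
      · exact h4 w (by simp [h])
      · subst h; exact fun h => hz (hA h)
      · exact h4 w (by simp [h])
    · rintro p hp q (hq | hq) hpq
      · subst hq
        have := (hadj p (hA hp)).1 hpq.symm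
        simp only [List.mem_cons, List.mem_append, List.not_mem_nil, or_false] at this
        exfalso
        rcases this with h | h | h
        · exact h4 p (by simp [h]) hp
        · exact h4 p (by simp [h]) hp
        · subst h
          rcases l0 with _ | ⟨d, l0⟩
          · simp at e3; exact h1 (e3.1 ▸ hp)
          · simp at e3; exact h4 p (by simp [e3.1]) hp
      · exact h6 p hp q hq hpq

theorem no_chord_add (h4 : FourConnected T) {D : Set V} {a0 b0 z : V} {P R : List V}
    (h : Geo T D (a0 :: (P ++ b0 :: R))) (hR : R ≠ []) (hz : z ∉ D)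
    (hsh : Shell T K (insert z D) (a0 :: z :: b0 :: R))
    (l0 : List V) (a : V) (l1 : List V) (b : V) (l2 : List V)
    (he : a0 :: (P ++ b0 :: R) = l0 ++ a :: (l1 ++ b :: l2)) (hab : T.Adj a b)
    (h1 : l1 ≠ []) (hl : l0.length + l1.length ≤ P.length) : False := by
  obtain ⟨hnd, hD, hs⟩ := h
  obtain ⟨A, hA, g1, g2, g3, g4, g5, g6⟩ := hs l0 a l1 b l2 he hab
  have hne : ∀ w ∈ D, w ≠ z := fun w hw e => hz (e ▸ hw)
  have he' : (a0 :: P) ++ b0 :: R = (l0 ++ a :: l1) ++ b :: l2 := by simpa using he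
  have hsuf : ∃ t, b :: l2 = t ++ b0 :: R := by
    rcases List.append_eq_append_iff.1 he' with ⟨t, e1, e2⟩ | ⟨t, e1, e2⟩
    · have := congrArg List.length e1
      simp at this
      have ht : t = [] := List.eq_nil_of_length_eq_zero (by omega)
      subst ht
      exact ⟨[], by simpa using e2.symm⟩
    · exact ⟨t, e2⟩
  obtain ⟨t, ht⟩ := hsuf
  have hRl : ∀ w ∈ R, w ∈ l2 := by
    intro w hw
    rcases t with _ | ⟨c, t⟩
    · simp at ht; exact ht.2 ▸ hw
    · simp at ht; simp [ht.2, hw]
  have hb0 : b0 ∉ A := by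
    have : b0 ∈ b :: l2 := by simp [ht]
    rcases List.mem_cons.1 this with h | h
    · exact h ▸ g2
    · exact g5 _ h
  have ha0 : a0 ∉ A := by
    rcases l0 with _ | ⟨c, l0⟩
    · simp at he; exact he.1 ▸ g1
    · simp at he; exact g4 _ (by simp [he.1])
  obtain ⟨p0, hp0⟩ := List.exists_mem_of_ne_nil l1 h1
  obtain ⟨q0, hq0⟩ := List.exists_mem_of_ne_nil R hR
  have hq2 := hRl q0 hq0
  rw [he] at hnd hD
  simp only [List.nodup_cons, List.nodup_append, List.mem_append, List.mem_cons] at hnd
  refine cut h4 a b z hab.ne (hne a (hD _ (by simp))) (hne b (hD _ (by simp))) A ?_ p0 q0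
    (g3 _ hp0) ?_ (g5 _ hq2) ?_
  · intro p hp q hpq
    have hpn : p ∉ a0 :: z :: b0 :: R := by
      simp only [List.mem_cons]
      rintro (h | h | h | h)
      · exact ha0 (h ▸ hp)
      · exact hne p (hA hp) h
      · exact hb0 (h ▸ hp)
      · exact g5 p (hRl p h) hp
    rcases hsh.closed p (Or.inr (hA hp)) hpn q hpq with h | h
    · exact Or.inr (Or.inr (Or.inr h))
    · rcases g6 p hp q h hpq with h | h | h <;> tauto
  · rintro (h | h | h)
    · exact g1 (h ▸ g3 _ hp0)
    · exact g2 (h ▸ g3 _ hp0)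
    · exact hne p0 (hA (g3 _ hp0)) h
  · rintro (h | h | h)
    · subst h; exact hnd.2.1.1 (Or.inr (Or.inr hq2))
    · subst h; exact hnd.2.1.2.2.1.1 hq2
    · exact hne q0 (hD _ (by simp [hq2])) h

theorem no_chord_close (h4 : FourConnected T) {D : Set V} {z : V} {R : List V}
    (h : Geo T D R) (hz : z ∉ D) (hall : ∀ w, w ∈ D ∨ w = z)
    (l0 : List V) (a : V) (l1 : List V) (b : V) (l2 : List V)
    (he : R = l0 ++ a :: (l1 ++ b :: l2)) (hab : T.Adj a b)
    (h1 : l1 ≠ []) (hl : l1.length + 3 ≤ R.length) : False := by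
  obtain ⟨hnd, hD, hs⟩ := h
  obtain ⟨A, hA, g1, g2, g3, g4, g5, g6⟩ := hs l0 a l1 b l2 he hab
  have hne : ∀ w ∈ D, w ≠ z := fun w hw e => hz (e ▸ hw)
  obtain ⟨p0, hp0⟩ := List.exists_mem_of_ne_nil l1 h1
  have h02 : l0 ++ l2 ≠ [] := by
    intro h
    have h' := congrArg List.length h
    have := congrArg List.length he
    simp at this h'
    have := h'.1; have := h'.2
    subst_vars
    simp at hl
  obtain ⟨q0, hq0⟩ := List.exists_mem_of_ne_nil _ h02
  have hq0' := List.mem_append.1 hq0
  rw [he] at hnd hD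
  simp only [List.nodup_cons, List.nodup_append, List.mem_append, List.mem_cons] at hnd
  refine cut h4 a b z hab.ne (hne a (hD _ (by simp))) (hne b (hD _ (by simp))) A ?_ p0 q0
    (g3 _ hp0) ?_ ?_ ?_
  · intro p hp q hpq
    rcases hall q with h | h
    · rcases g6 p hp q h hpq with h | h | h <;> tauto
    · tauto
  · rintro (h | h | h)
    · exact g1 (h ▸ g3 _ hp0)
    · exact g2 (h ▸ g3 _ hp0)
    · exact hne p0 (hA (g3 _ hp0)) h
  · rcases hq0' with h | h
    · exact g4 _ h
    · exact g5 _ h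
  · rintro (h | h | h)
    · subst h
      rcases hq0' with h | h
      · exact hnd.2.2 q0 h q0 (Or.inl rfl) rfl
      · exact hnd.2.1.1 (Or.inr (Or.inr h))
    · subst h
      rcases hq0' with h | h
      · exact hnd.2.2 q0 h q0 (Or.inr (Or.inr (Or.inl rfl))) rfl
      · exact hnd.2.1.2.2.1.1 h
    · refine hne q0 (hD _ ?_) h
      rcases hq0' with h | h <;> simp [h]

theorem min_deg [Finite V] (h4 : FourConnected T) (w : V) : 4 ≤ (T.neighborSet w).ncard := by
  classical
  by_contra hlt
  have hc : 3 ≤ ({w}ᶜ : Set V).ncard := by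
    have := Set.ncard_add_ncard_compl ({w} : Set V)
    have h := h4.1
    simp at this
    omega
  obtain ⟨S, h1, h2, h3⟩ := Set.exists_subsuperset_card_eq
    (s := T.neighborSet w) (t := ({w}ᶜ : Set V)) (n := 3)
    (fun q hq => by simpa using (SimpleGraph.Adj.ne hq).symm) (by omega) hc
  obtain ⟨a, b, z, hab, haz, hbz, hS⟩ := Set.ncard_eq_three.1 h3
  have hwS : w ∉ S := fun h => h2 h rfl
  have hq : ∃ q, q ∉ insert w S := by
    by_contra hno
    push Not at hno
    have e : insert w S = Set.univ := Set.eq_univ_of_forall hno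
    have := Set.ncard_insert_le w S
    rw [e, Set.ncard_univ] at this
    have h := h4.1
    omega
  obtain ⟨q, hq⟩ := hq
  refine cut h4 a b z hab haz hbz {w} ?_ w q rfl (hS ▸ hwS) (fun h => hq (Or.inl h))
    (hS ▸ fun h => hq (Or.inr h))
  intro p hp q hpq
  have : q ∈ S := h1 (by rw [Set.mem_singleton_iff.1 hp] at hpq; exact hpq)
  rw [hS] at this
  exact Or.inr this

end H44Shell
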