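import Pool.Agent.H44.ShellCertA
import Pool.Agent.H44.ShellCertB
import Pool.Agent.H44.ShellCertC
import Pool.Agent.H44.ShellFinal

namespace H44Shell

theorem good : Good dat := by
  have ht := cert_tab
  have hb := cert_base
  have hs := cert_small
  simp only [List.all_eq_true] at ht hb hs
  have m4 : ∀ k, 4 ≤ k → k ≤ 7 → k ∈ [4,5,6,7] := fun k h1 h2 => by
    simp only [List.mem_cons, List.not_mem_nil, or_false]; omega
  have small : ∀ k r, (k, r) ∈ [(4,0),(4,2),(4,3),(5,0),(5,2),(5,3),(5,4),(6,0),(6,3),(6,4),(6,5),
      (7,4),(7,5),(7,6)] → ∀ j < nlF (nk k r), Bwd (clF k) (nlF k) (tbF k r) (clF (nk k r)) j :=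
    fun k r h j hj => bwdR_spec (hs _ h) j (Nat.zero_le _) (by simpa using hj)
  refine ⟨fun k h1 h2 => ht k (m4 k h1 h2) 0 (by simp), fun k r h1 h2 h3 h4 => ?_,
    fun k h1 h2 => bwdR_spec (hb k (m4 k h1 h2)) 0 le_rfl (by omega), fun k h1 h2 j hj => ?_,
    fun k r h1 h2 h3 h4 h5 j hj => ?_, fun i hi => ?_⟩
  · have := ht k (m4 k h1 h2) r (by simp only [List.mem_cons, List.not_mem_nil, or_false]; omega)
    obtain ⟨r, rfl⟩ : ∃ t, r = t + 1 := ⟨r - 1, by omega⟩
    exact this
  · interval_cases k
    · exact small 4 0 (by simp) j hj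
    · exact small 5 0 (by simp) j hj
    · exact small 6 0 (by simp) j hj
    · have hj : j < 5790 := hj
      exact cert_70 j hj
  · interval_cases k <;> interval_cases r
    · exact small 4 2 (by simp) j hj
    · exact small 4 3 (by simp) j hj
    · exact small 5 2 (by simp) j hj
    · exact small 5 3 (by simp) j hj
    · exact small 5 4 (by simp) j hj
    · have hj : j < 5790 := hj
      exact cert_62 j hj
    · exact small 6 3 (by simp) j hj
    · exact small 6 4 (by simp) j hj
    · exact small 6 5 (by simp) j hj
    · omega
    · have hj : j < 5790 := hj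
      exact cert_73 j hj
    · exact small 7 4 (by simp) j hj
    · exact small 7 5 (by simp) j hj
    · exact small 7 6 (by simp) j hj
  · have hi : i < 860 := hi
    have l0 : wit0.length = 128 := by decide +kernel
    have l1 : wit1.length = 128 := by decide +kernel
    have l2 : wit2.length = 128 := by decide +kernel
    have l3 : wit3.length = 128 := by decide +kernel
    have l4 : wit4.length = 128 := by decide +kernel
    have l5 : wit5.length = 128 := by decide +kernel
    have l6 : wit6.length = 92 := by decide +kernel
    by_cases a0 : i < 128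
    · exact allSt_spec _ _ _ cert_w0 i (by omega) (by omega)
    by_cases a1 : i < 256
    · exact allSt_spec _ _ _ cert_w1 i (by omega) (by omega)
    by_cases a2 : i < 384
    · exact allSt_spec _ _ _ cert_w2 i (by omega) (by omega)
    by_cases a3 : i < 512
    · exact allSt_spec _ _ _ cert_w3 i (by omega) (by omega)
    by_cases a4 : i < 640
    · exact allSt_spec _ _ _ cert_w4 i (by omega) (by omega)
    by_cases a5 : i < 768
    · exact allSt_spec _ _ _ cert_w5 i (by omega) (by omega)
    · exact allSt_spec _ _ _ cert_w6 i (by omega) (by omega)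

end H44Shell
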