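import Pool.Agent.H44.ShellSound

namespace H44Shell
variable {V : Type} {T : SimpleGraph V} {x y : V}

theorem split_le {α : Type} {l m l' m' : List α} (h : l ++ m = l' ++ m') (hl : l.length ≤ l'.length) :
    ∃ t, l' = l ++ t ∧ m = t ++ m' := by
  rcases List.append_eq_append_iff.1 h with ⟨t, e1, e2⟩ | ⟨t, e1, e2⟩
  · exact ⟨t, e1, e2⟩
  · have := congrArg List.length e1
    simp at this
    have ht : t = [] := List.eq_nil_of_length_eq_zero (by omega)
    subst ht
    exact ⟨[], by simpa using e1.symm, by simpa using e2.symm⟩

theorem ncard_list [Finite V] : ∀ l : List V, ({w | w ∈ l} : Set V).ncard ≤ l.length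
  | [] => by simp
  | a :: l => by
    have : ({w | w ∈ a :: l} : Set V) = insert a {w | w ∈ l} := by ext w; simp
    rw [this]
    exact (Set.ncard_insert_le _ _).trans (by simpa using ncard_list l)

theorem f2_mem {Q : ℕ → V → Prop} {l : List ℕ} {R : List V} (h : List.Forall₂ Q l R) :
    ∀ n ∈ l, ∃ w ∈ R, Q n w := by
  induction h with
  | nil => simp
  | cons g1 _ ih =>
    intro n hn
    rcases List.mem_cons.1 hn with e | e
    · exact ⟨_, by simp, e ▸ g1⟩
    · obtain ⟨w, hw, h⟩ := ih n e
      exact ⟨w, by simp [hw], h⟩

theorem f2_imp {Q Q' : ℕ → V → Prop} {l : List ℕ} {R : List V} (h : List.Forall₂ Q l R)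
    (hq : ∀ n, ∀ w ∈ R, Q n w → Q' n w) : List.Forall₂ Q' l R := by
  induction h with
  | nil => exact List.Forall₂.nil
  | cons g1 _ ih =>
    exact List.Forall₂.cons (hq _ _ (by simp) g1) (ih fun n w hw => hq n w (by simp [hw]))

theorem out_le [Finite V] (D : Set V) (z w : V) :
    (T.neighborSet w \ D).ncard - 1 ≤ (T.neighborSet w \ insert z D).ncard := by
  have h1 : T.neighborSet w \ D ⊆ insert z (T.neighborSet w \ insert z D) := by
    intro q hq
    by_cases e : q = z
    · exact Or.inl e
    · exact Or.inr ⟨hq.1, fun h => h.elim e hq.2⟩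
  have := Set.ncard_le_ncard h1
  have := Set.ncard_insert_le z (T.neighborSet w \ insert z D)
  omega

theorem Match.add [Finite V] {d : Data} (hd : Good d) {s : St} {D : Set V} {a b z : V}
    {P R : List V} (h : Match T x y d s D (a :: (P ++ b :: R)))
    (hg : Geo T D (a :: (P ++ b :: R))) (hR : R ≠ []) (hz : z ∉ D) (hx : x ∈ D) (hy : y ∈ D)
    (hadj : ∀ w ∈ D, T.Adj z w ↔ w ∈ a :: (P ++ [b])) (h5 : 5 ≤ (T.neighborSet z).ncard)
    (h4 : 4 ≤ (a :: (P ++ b :: R)).length) (h7 : (a :: (P ++ b :: R)).length ≤ 7) :
    Match T x y d (addS d s (P.length + 2)) (insert z D) (a :: z :: b :: R) := by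
  obtain ⟨h1, h2, h3⟩ := h
  obtain ⟨hnd, hD, -⟩ := hg
  have hl := h1.length_eq
  have hR' : 0 < R.length := List.length_pos_iff.2 hR
  refine ⟨?_, ?_, ?_⟩
  · show List.Forall₂ _ ((s.need.headD 0 - 1) :: (5 - (P.length + 2)) ::
      ((s.need.drop (P.length + 2 - 1)).headD 0 - 1) :: s.need.drop (P.length + 2)) _
    generalize s.need = N at h1
    cases h1 with
    | @cons n0 _ ns _ g1 g2 =>
      have g3 := List.forall₂_drop_append ns P (b :: R) g2
      have e1 : (n0 :: ns).drop (P.length + 2 - 1) = ns.drop P.length := rfl
      have e2 : (n0 :: ns).drop (P.length + 2) = (ns.drop P.length).drop 1 := by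
        rw [List.drop_drop]; rfl
      rw [e1, e2]
      generalize ns.drop P.length = M at g3
      cases g3 with
      | @cons nb _ nR _ g4 g5 =>
        refine List.Forall₂.cons ?_ (List.Forall₂.cons ?_ (List.Forall₂.cons ?_ ?_))
        · have := out_le (T := T) D z a
          simp only [List.headD_cons]; omega
        · have s1 : T.neighborSet z ⊆ (T.neighborSet z \ insert z D) ∪ {w | w ∈ a :: (P ++ [b])} := by
            intro q hq
            by_cases e : q ∈ D
            · exact Or.inr ((hadj q e).1 hq)
            · exact Or.inl ⟨hq, fun h => h.elim (fun h => T.irrefl (h ▸ hq)) e⟩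
          have := Set.ncard_le_ncard s1
          have := Set.ncard_union_le (T.neighborSet z \ insert z D) {w | w ∈ a :: (P ++ [b])}
          have := ncard_list (a :: (P ++ [b]))
          simp only [List.length_cons, List.length_append, List.length_nil] at this
          omega
        · have := out_le (T := T) D z b
          simp only [List.headD_cons]; omega
        · refine f2_imp g5 fun n w hw hn => hn.trans (Set.ncard_le_ncard ?_)
          intro q hq
          refine ⟨hq.1, fun h => h.elim (fun e => ?_) hq.2⟩
          subst e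
          have := (hadj w (hD w (by simp [hw]))).1 hq.1.symm
          simp only [List.nodup_cons, List.nodup_append, List.mem_append, List.mem_cons,
            List.not_mem_nil, or_false] at hnd this
          rcases this with h | h | h
          · subst h; exact hnd.1 (Or.inr (Or.inr hw))
          · exact hnd.2.2.2 w h w (Or.inr hw) rfl
          · subst h; exact hnd.2.2.1.1 hw
  · intro e he
    simp only [addS, List.mem_cons, List.mem_filterMap] at he
    rcases he with he | he | ⟨e0, he0, he⟩
    · subst he
      exact ⟨[], a, [], z, b :: R, rfl, rfl, rfl, ((hadj a (hD a (by simp))).2 (by simp)).symm⟩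
    · subst he
      exact ⟨[a], z, [], b, R, rfl, rfl, rfl, (hadj b (hD b (by simp))).2 (by simp)⟩
    · obtain ⟨l0, a', l1, b', l2, g1, g2, g3, g4⟩ := h2 e0 he0
      rcases l0 with _ | ⟨c, l0⟩
      · have e1 : Nat.beq e0.1 0 = true := by rw [← g2]; rfl
        rw [addE, e1, cond_true] at he
        cases hb : Nat.ble (P.length + 2) (e0.2 + 2) with
        | false => simp [hb] at he
        | true =>
          rw [hb, cond_true, Option.some.injEq] at he
          have hle := Nat.le_of_ble_eq_true hb
          simp only [List.nil_append, List.cons.injEq] at g1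
          obtain ⟨t, t1, t2⟩ := split_le g1.2 (by omega)
          refine ⟨[], a', z :: t, b', l2, by simp [g1.1, t2], by simp [← he], ?_, g4⟩
          have := congrArg List.length t1
          simp at this
          simp [← he]; omega
      · have e1 : Nat.beq e0.1 0 = false := by rw [← g2]; rfl
        rw [addE, e1, cond_false] at he
        cases hb : Nat.ble (P.length + 2) (e0.1 + 1) with
        | false => simp [hb] at he
        | true =>
          rw [hb, cond_true, Option.some.injEq] at he
          have hle := Nat.le_of_ble_eq_true hb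
          simp only [List.cons_append, List.cons.injEq] at g1
          simp only [List.length_cons] at g2
          obtain ⟨t, t1, t2⟩ := split_le g1.2 (by omega)
          refine ⟨a :: z :: t, a', l1, b', l2, by simp [t2], ?_, by simp [← he, g3], g4⟩
          have := congrArg List.length t1
          simp at this
          simp [← he]; omega
  · intro i hi
    obtain ⟨i0, g1, g2⟩ := img_spec _ _ _ hi
    have e : (a :: z :: b :: R).length = (a :: (P ++ b :: R)).length + 3 - (P.length + 2) := by
      simp; omega
    rw [hl] at g2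
    rw [e]
    exact step_add (h3 i0 g1) hz hx hy hD hadj
      (tabOK_spec _ _ _ _ (hd.tabr _ _ h4 h7 (by omega) (by simp; omega)) i0 i g2)

theorem not_forb [Finite V] (hc : FourConnected T) {d : Data} {s : St} {D : Set V} {a b z : V}
    {P R : List V} (h : Match T x y d s D (a :: (P ++ b :: R)))
    (hg : Geo T D (a :: (P ++ b :: R))) (hR : R ≠ []) (hz : z ∉ D)
    (hs : Shell T 7 (insert z D) (a :: z :: b :: R)) : forb s (P.length + 2) = true → False := by
  intro hf
  simp only [forb, Bool.or_eq_true, List.any_eq_true, Bool.and_eq_true, Nat.ble_eq] at hf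
  rcases hf with ⟨n, hn, h2⟩ | ⟨e, he, h1, h2⟩
  · have h1 := h.1
    generalize s.need = N at h1 hn
    cases h1 with
    | @cons n0 _ ns _ g1 g2 =>
      obtain ⟨w, hw, g⟩ := f2_mem (List.forall₂_take_append ns P (b :: R) g2) n (by simpa using hn)
      have hwD : w ∈ D := hg.2.1 w (by simp [hw])
      have hnd := hg.1
      simp only [List.nodup_cons, List.nodup_append, List.mem_append, List.mem_cons] at hnd
      have hsub : T.neighborSet w \ D ⊆ {z} := by
        intro q hq
        refine (hs.closed w (Or.inr hwD) ?_ q hq.1).elim id fun h => absurd h hq.2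
        simp only [List.mem_cons]
        rintro (h | h | h)
        · subst h; exact hnd.1 (Or.inl hw)
        · exact hz (h ▸ hwD)
        · exact hnd.2.2.2 w hw w h rfl
      have := Set.ncard_le_ncard hsub
      rw [Set.ncard_singleton] at this
      omega
  · obtain ⟨l0, a', l1, b', l2, g1, g2, g3, g4⟩ := h.2.1 e he
    exact no_chord_add hc hg hR hz hs l0 a' l1 b' l2 g1 g4
      (List.length_pos_iff.1 (by omega)) (by omega)

theorem Geo.rotate {D : Set V} {R : List V} (h : Geo T D R) : ∀ n, Geo T D (R.rotate n)
  | 0 => by simpa using h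
  | n + 1 => by
    rw [← List.rotate_rotate, ← trn_eq]
    have := Geo.rotate h n
    generalize R.rotate n = L at this
    cases L with
    | nil => exact this
    | cons a L => exact this.turn

theorem forward [Finite V] (hc : FourConnected T) {d : Data} (hd : Good d) {D : Set V}
    {R : List V} (h : Shell T 7 D R) :
    Geo T D R → 4 ≤ R.length → x ∈ D → y ∈ D → (∀ w ∉ D, 5 ≤ (T.neighborSet w).ncard) →
    (∃ i < d.ns, ∃ m, Match T x y d (d.st i) D (R.rotate m)) → Goal T x y := by
  induction h with
  | close D R z h7 hz hall hadj =>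
    rintro hg h4 hx hy h5 ⟨i, hi, m, hm⟩
    obtain ⟨W, hW⟩ := hd.fwd i hi
    rw [chkSt, fS_eq, Bool.and_eq_true] at hW
    have hl := hm.1.length_eq
    have hadj' : ∀ w ∈ D, T.Adj z w ↔ w ∈ R.rotate m := by simpa using hadj
    have hg' := hg.rotate m
    have hW := hW.1
    simp only [closeOK, Bool.or_eq_true, List.any_eq_true, Bool.and_eq_true, Nat.ble_eq,
      Nat.beq_eq] at hW
    rcases hW with ((h | ⟨n, hn, h⟩) | ⟨e, he, h1, h2⟩) | h
    · have s1 : T.neighborSet z ⊆ {w | w ∈ R.rotate m} := fun q hq =>
        (hall q).elim (fun e => (hadj' q e).1 hq) fun e => absurd (e ▸ hq) T.irrefl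
      have := Set.ncard_le_ncard s1
      have := ncard_list (R.rotate m)
      have := h5 z hz
      omega
    · obtain ⟨w, -, g⟩ := f2_mem hm.1 n hn
      have hsub : T.neighborSet w \ D ⊆ {z} := fun q hq => (hall q).elim (fun e => absurd e hq.2) id
      have := Set.ncard_le_ncard hsub
      rw [Set.ncard_singleton] at this
      omega
    · obtain ⟨l0, a', l1, b', l2, g1, g2, g3, g4⟩ := hm.2.1 e he
      exact (no_chord_close hc hg' hz hall l0 a' l1 b' l2 g1 g4
        (List.length_pos_iff.1 (by omega)) (by omega)).elim
    · obtain ⟨j, g1, g2⟩ := img_spec (clo (d.pt (d.st i).need.length)) (d.st i).S 0 (by rw [h]; rfl)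
      rw [hl] at g2
      exact step_close (hm.2.2 j g1) hz hx hy hall hadj' (clo_spec _ _ _ g2)
  | turn D a R hs ih =>
    rintro hg h4 hx hy h5 ⟨i, hi, m, hm⟩
    refine ih hg.turn (by simpa using h4) hx hy h5 ⟨i, hi, R.length + m, ?_⟩
    have e : (R ++ [a]).rotate R.length = a :: R := by
      rw [List.rotate_append_length_eq]; rfl
    rw [← List.rotate_rotate, e]
    exact hm
  | add D a b z P R h7 hR hz hadj hs ih =>
    rintro hg h4 hx hy h5 ⟨i, hi, m, hm⟩
    obtain ⟨W, hW⟩ := hd.fwd i hi
    rw [chkSt, fS_eq, Bool.and_eq_true] at hW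
    have hR' : 0 < R.length := List.length_pos_iff.2 hR
    obtain ⟨k, hk⟩ : ∃ k, k = (a :: (P ++ b :: R)).length := ⟨_, rfl⟩
    have hkP : k = P.length + R.length + 2 := by rw [hk]; simp; omega
    have hl : (d.st i).need.length = k := by rw [hm.1.length_eq, List.length_rotate, hk]
    have hmk : m % k < k := Nat.mod_lt _ (by omega)
    obtain ⟨W', hp⟩ := loop_spec d _ _ _ hW.2 (k - m % k - 1) (by omega)
    have hM := hm.iter hd (by simpa using h4) (by simpa using h7) (k - m % k - 1 + 1)
    have er : ((a :: (P ++ b :: R)).rotate m).rotate (k - m % k - 1 + 1) = a :: (P ++ b :: R) := by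
      rw [← List.rotate_mod _ m, List.rotate_rotate, ← hk,
        show m % k + (k - m % k - 1 + 1) = k by omega, hk, List.rotate_length]
    rw [er] at hM
    generalize (rotS d)^[k - m % k - 1 + 1] (d.st i) = s at hp hM
    have hsl : s.need.length = k := by rw [hM.1.length_eq, hk]
    have hk' : (a :: z :: b :: R).length = k + 3 - (P.length + 2) := by simp; omega
    have h7' := hs.len
    have hA := hM.add hd hg hR hz hx hy hadj (h5 z hz) h4 h7
    have hg' := hg.add hz hadj
    simp only [chkPos, List.all_eq_true] at hp
    have hp := hp (P.length + 2) (by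
      simp only [List.mem_cons, List.not_mem_nil, or_false]; omega)
    generalize (W' >>> (14 * (P.length + 2 - 2))) % 16384 = w at hp
    simp only [chkStep, Bool.or_eq_true, Nat.ble_eq] at hp
    rcases hp with ((h | h) | h) | h
    · omega
    · omega
    · exact (not_forb hc hM hg hR hz hs h).elim
    · cases hw : Nat.beq w 0 with
      | true =>
        rw [hw, cond_true, hsl, ← hk', absorb, Nat.beq_eq] at h
        obtain ⟨j, hj, H⟩ := back (x := x) (y := y) hd hs (by simp; omega) hg'.2.1
          (Or.inr hx) (Or.inr hy)
        have h' : img (d.cl (a :: z :: b :: R).length) (addS d s (P.length + 2)).S &&&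
          (2 ^ d.nl (a :: z :: b :: R).length - 1) = 2 ^ d.nl (a :: z :: b :: R).length - 1 := h
        have hb := congrArg (fun n => n.testBit j) h'
        simp only [Nat.testBit_and, Nat.testBit_two_pow_sub_one, hj, decide_true,
          Bool.and_true] at hb
        obtain ⟨i', g1, g2⟩ := img_spec _ _ _ hb
        exact H i' g2 (hA.2.2 i' g1)
      | false =>
        rw [hw, cond_false, fS_eq, fS_eq] at h
        simp only [Bool.and_eq_true, Nat.ble_eq] at h
        refine ih hg' (by simp; omega) (Or.inr hx) (Or.inr hy)
          (fun q hq => h5 q fun e => hq (Or.inr e)) ⟨w / 8 - 1, by omega, w % 8, ?_⟩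
        exact (hA.iter hd (by simp; omega) h7' _).dom (domR_spec d _ _ _ h.2)

end H44Shell
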