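import Pool.Agent.H44.ShellChk

namespace H44Shell
variable {V : Type} {T : SimpleGraph V} {x y : V}

def Col (T : SimpleGraph V) (x y : V) (D : Set V) (f : V → ℕ) : Prop :=
  (∀ w, f w < 4) ∧ (∀ a ∈ D, ∀ b ∈ D, T.Adj a b → f a ≠ f b) ∧ f x ≠ f y

def Real (T : SimpleGraph V) (x y : V) (D : Set V) (R : List V) (p : List ℕ) : Prop :=
  ∃ f, Col T x y D f ∧ R.map f = p

def Goal (T : SimpleGraph V) (x y : V) : Prop := ∃ f, Col T x y Set.univ f

theorem Real.perm {D : Set V} {R : List V} {p s : List ℕ} (h : Real T x y D R p) (hs : s ∈ perms) :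
    Real T x y D R (p.map (ap s)) := by
  obtain ⟨f, ⟨h1, h2, h3⟩, h4⟩ := h
  obtain ⟨g1, g2⟩ := perms_ok s hs
  refine ⟨ap s ∘ f, ⟨fun w => g1 _ (h1 w), fun a ha b hb hab e => h2 a ha b hb hab
    (g2 _ (h1 a) _ (h1 b) e), fun e => h3 (g2 _ (h1 x) _ (h1 y) e)⟩, ?_⟩
  rw [← h4, List.map_map]

theorem Col.ext [DecidableEq V] {D : Set V} {f : V → ℕ} {z : V} {c : ℕ} (h : Col T x y D f)
    (hz : z ∉ D) (hx : x ∈ D) (hy : y ∈ D) (hc : c < 4) (hn : ∀ w ∈ D, T.Adj z w → f w ≠ c) :
    Col T x y (insert z D) (Function.update f z c) := by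
  have hne : ∀ w ∈ D, Function.update f z c w = f w := fun w hw =>
    Function.update_of_ne (fun e : w = z => hz (e ▸ hw)) _ _
  refine ⟨fun w => ?_, ?_, by rw [hne x hx, hne y hy]; exact h.2.2⟩
  · by_cases e : w = z
    · subst e; simpa using hc
    · rw [Function.update_of_ne e]; exact h.1 w
  · rintro a (ha | ha) b (hb | hb) hab
    · subst ha hb; exact absurd hab T.irrefl
    · subst ha; rw [hne b hb, Function.update_self]; exact (hn b hb hab).symm
    · subst hb; rw [hne a ha, Function.update_self]; exact hn a ha hab.symm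
    · rw [hne a ha, hne b hb]; exact h.2.1 a ha b hb hab

theorem step_rot {D : Set V} {R : List V} {p q : List ℕ} (h : Real T x y D R p)
    (hs : stepOK 0 p q = true) : Real T x y D (trn R) q := by
  simp only [stepOK, nxt, if_true, List.any_cons, List.any_nil, Bool.or_false, List.any_eq_true] at hs
  obtain ⟨s, hs, e⟩ := hs
  rw [← eqMap_spec _ _ _ e]
  refine Real.perm ?_ hs
  obtain ⟨f, h1, h2⟩ := h
  exact ⟨f, h1, by subst h2; cases R <;> simp [trn]⟩

theorem step_add {D : Set V} {a b z : V} {P R : List V} {p q : List ℕ}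
    (h : Real T x y D (a :: (P ++ b :: R)) p) (hz : z ∉ D) (hx : x ∈ D) (hy : y ∈ D)
    (hD : ∀ w ∈ a :: (P ++ b :: R), w ∈ D) (hadj : ∀ w ∈ D, T.Adj z w ↔ w ∈ a :: (P ++ [b]))
    (hs : stepOK (P.length + 2) p q = true) : Real T x y (insert z D) (a :: z :: b :: R) q := by
  classical
  simp only [stepOK, nxt, List.any_eq_true, Nat.succ_ne_zero, if_false, List.mem_map,
    List.mem_filter] at hs
  obtain ⟨u, ⟨c, ⟨hc, hc2⟩, hu⟩, s, hs, e⟩ := hs
  rw [← eqMap_spec _ _ _ e, ← hu]
  refine Real.perm ?_ hs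
  obtain ⟨f, h1, h2⟩ := h
  have hc4 : c < 4 := by simp at hc; omega
  have ht : p.take (P.length + 2) = (a :: (P ++ [b])).map f := by
    rw [← h2, ← List.map_take]
    congr 1
    have : a :: (P ++ b :: R) = (a :: (P ++ [b])) ++ R := by simp
    rw [this, List.take_left' (by simp)]
  refine ⟨Function.update f z c, h1.ext hz hx hy hc4 ?_, ?_⟩
  · intro w hw hzw e
    rw [ht] at hc2
    simp only [Bool.not_eq_true', List.contains_eq_mem, decide_eq_false_iff_not] at hc2
    exact hc2 (List.mem_map.2 ⟨w, (hadj w hw).1 hzw, e⟩)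
  · have hne : ∀ w ∈ D, Function.update f z c w = f w := fun w hw =>
      Function.update_of_ne (fun e : w = z => hz (e ▸ hw)) _ _
    have hd : p.drop (P.length + 2 - 1) = (b :: R).map f := by
      rw [← h2, ← List.map_drop]
      congr 1
      have : a :: (P ++ b :: R) = (a :: P) ++ b :: R := by simp
      rw [this, List.drop_left' (by simp)]
    rw [hd, ← h2, List.map_cons, List.map_cons, Function.update_self, hne a (hD a (by simp))]
    congr 2
    exact List.map_congr_left fun w hw => hne w (hD w (by simp at hw ⊢; tauto))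

theorem step_close {D : Set V} {z : V} {R : List V} {p : List ℕ} (h : Real T x y D R p)
    (hz : z ∉ D) (hx : x ∈ D) (hy : y ∈ D) (hall : ∀ w, w ∈ D ∨ w = z)
    (hadj : ∀ w ∈ D, T.Adj z w ↔ w ∈ R) (hf : free p = true) : Goal T x y := by
  classical
  obtain ⟨f, h1, h2⟩ := h
  simp only [free, List.any_eq_true] at hf
  obtain ⟨c, hc, hc2⟩ := hf
  have hc4 : c < 4 := by simp at hc; omega
  have : insert z D = Set.univ := Set.eq_univ_of_forall fun w => (hall w).symm
  refine ⟨Function.update f z c, this ▸ h1.ext hz hx hy hc4 ?_⟩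
  intro w hw hzw e
  simp only [Bool.not_eq_true', List.contains_eq_mem, decide_eq_false_iff_not] at hc2
  exact hc2 (h2 ▸ List.mem_map.2 ⟨w, (hadj w hw).1 hzw, e⟩)

structure Good (d : Data) : Prop where
  tab0 : ∀ k, 4 ≤ k → k ≤ 7 → tabOK 0 (d.pt k) (d.tb k 0) (d.pt k) = true
  tabr : ∀ k r, 4 ≤ k → k ≤ 7 → 2 ≤ r → r < k → tabOK r (d.pt (k + 3 - r)) (d.tb k r) (d.pt k) = true
  base : ∀ k, 4 ≤ k → k ≤ 7 → Bwd (d.cl k) (d.nl k) (clo (d.pt k)) [1] 0
  bwd0 : ∀ k, 4 ≤ k → k ≤ 7 → ∀ j < d.nl k, Bwd (d.cl k) (d.nl k) (d.tb k 0) (d.cl k) j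
  bwdr : ∀ k r, 4 ≤ k → k ≤ 7 → 2 ≤ r → r < k → k + 3 - r ≤ 7 →
    ∀ j < d.nl (k + 3 - r), Bwd (d.cl k) (d.nl k) (d.tb k r) (d.cl (k + 3 - r)) j
  fwd : ∀ i < d.ns, ∃ W, chkSt d (d.st i) W = true

theorem back {d : Data} (hd : Good d) {D : Set V} {R : List V} (h : Shell T 7 D R) :
    4 ≤ R.length → (∀ w ∈ R, w ∈ D) → x ∈ D → y ∈ D →
    ∃ j < d.nl R.length, ∀ i, ((d.cl R.length).getD i 0).testBit j = true →
      Real T x y D R ((d.pt R.length).getD i []) → Goal T x y := by
  induction h with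
  | close D R z hl hz hall hadj =>
    intro h4 _ hx hy
    obtain ⟨j, hj, H⟩ := hd.base _ h4 hl
    refine ⟨j, hj, fun i hi hr => ?_⟩
    obtain ⟨i', h1, -⟩ := H i hi
    exact step_close hr hz hx hy hall hadj (clo_spec _ _ _ h1)
  | turn D a R hs ih =>
    intro h4 hD hx hy
    have hl : (R ++ [a]).length = (a :: R).length := by simp
    have h7 : (a :: R).length ≤ 7 := hl ▸ hs.len
    obtain ⟨j', hj', H'⟩ := ih (by omega) (fun w hw => hD w (by simp at hw ⊢; tauto)) hx hy
    rw [hl] at hj' H'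
    obtain ⟨j, hj, H⟩ := hd.bwd0 _ h4 h7 j' hj'
    refine ⟨j, hj, fun i hi hr => ?_⟩
    obtain ⟨i', h1, h2⟩ := H i hi
    exact H' i' h2 (step_rot hr (tabOK_spec _ _ _ _ (hd.tab0 _ h4 h7) i i' h1))
  | add D a b z P R h7 hR hz hadj hs ih =>
    intro h4 hD hx hy
    have hR' : 0 < R.length := List.length_pos_iff.2 hR
    have hl : (a :: z :: b :: R).length = (a :: (P ++ b :: R)).length + 3 - (P.length + 2) := by
      simp; omega
    have hlt : P.length + 2 < (a :: (P ++ b :: R)).length := by simp; omega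
    obtain ⟨j', hj', H'⟩ := ih (by simp; omega) (fun w hw => by
      simp only [List.mem_cons] at hw
      rcases hw with h | h | h
      · exact Or.inr (hD w (by simp [h]))
      · exact Or.inl h
      · exact Or.inr (hD w (by simp only [List.mem_cons, List.mem_append]; tauto)))
      (Or.inr hx) (Or.inr hy)
    rw [hl] at hj' H'
    obtain ⟨j, hj, H⟩ := hd.bwdr _ _ h4 h7 (by omega) hlt (hl ▸ hs.len) j' hj'
    refine ⟨j, hj, fun i hi hr => ?_⟩
    obtain ⟨i', h1, h2⟩ := H i hi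
    exact H' i' h2 (step_add hr hz hx hy hD hadj
      (tabOK_spec _ _ _ _ (hd.tabr _ _ h4 h7 (by omega) hlt) i i' h1))

def Chord (T : SimpleGraph V) (R : List V) (e : ℕ × ℕ) : Prop :=
  ∃ l0 a l1 b l2, R = l0 ++ a :: (l1 ++ b :: l2) ∧ l0.length = e.1 ∧ l1.length = e.2 ∧ T.Adj a b

def Match (T : SimpleGraph V) (x y : V) (d : Data) (s : St) (D : Set V) (R : List V) : Prop :=
  List.Forall₂ (fun n w => n ≤ (T.neighborSet w \ D).ncard) s.need R ∧
  (∀ e ∈ s.ch, Chord T R e) ∧
  ∀ i, s.S.testBit i = true → Real T x y D R ((d.pt R.length).getD i [])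

theorem Match.rot {d : Data} (hd : Good d) {s : St} {D : Set V} {R : List V}
    (h : Match T x y d s D R) (h4 : 4 ≤ R.length) (h7 : R.length ≤ 7) :
    Match T x y d (rotS d s) D (R.rotate 1) := by
  obtain ⟨h1, h2, h3⟩ := h
  have hl := h1.length_eq
  rw [← trn_eq]
  refine ⟨?_, ?_, ?_⟩
  · show List.Forall₂ _ (trn s.need) _
    generalize s.need = N at h1
    cases h1 with
    | nil => exact List.Forall₂.nil
    | cons g1 g2 => exact List.rel_append g2 (List.Forall₂.cons g1 List.Forall₂.nil)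
  · intro e he
    obtain ⟨e0, he0, rfl⟩ := List.mem_map.1 he
    obtain ⟨l0, a, l1, b, l2, g1, g2, g3, g4⟩ := h2 e0 he0
    rcases l0 with _ | ⟨c, l0⟩
    · have : e0.1 = 0 := by simpa using g2.symm
      refine ⟨l1, b, l2, a, [], by simp [g1, trn], by simp [rotE, this, g3], ?_, g4.symm⟩
      have := congrArg List.length g1
      simp at this
      simp [rotE, *]
      omega
    · have : Nat.beq e0.1 0 = false := by rw [← g2]; rfl
      refine ⟨l0, a, l1, b, l2 ++ [c], by simp [g1, trn], ?_, by simp [rotE, this, g3], g4⟩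
      rw [rotE, this, ← g2]; rfl
  · intro i hi
    obtain ⟨i0, g1, g2⟩ := img_spec _ _ _ hi
    have e : (trn R).length = R.length := by rw [trn_eq, List.length_rotate]
    rw [hl] at g2
    rw [e]
    exact step_rot (h3 i0 g1) (tabOK_spec _ _ _ _ (hd.tab0 _ h4 h7) i0 i g2)

theorem Match.iter {d : Data} (hd : Good d) {D : Set V} {R : List V} (h4 : 4 ≤ R.length)
    (h7 : R.length ≤ 7) {s : St} (h : Match T x y d s D R) :
    ∀ n, Match T x y d ((rotS d)^[n] s) D (R.rotate n)
  | 0 => by simpa using h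
  | n + 1 => by
    rw [Function.iterate_succ_apply', ← List.rotate_rotate]
    exact (Match.iter hd h4 h7 h n).rot hd (by simpa using h4) (by simpa using h7)

theorem leL_spec {Q : ℕ → V → Prop} (hQ : ∀ n m w, n ≤ m → Q m w → Q n w) :
    ∀ (a b : List ℕ) (R : List V), leL a b = true → List.Forall₂ Q b R → List.Forall₂ Q a R
  | [], [], _, _, h => h
  | [], _ :: _, _, h, _ => by simp [leL] at h
  | _ :: _, [], _, h, _ => by simp [leL] at h
  | n :: a, m :: b, _, h, h2 => by
    simp only [leL, Bool.and_eq_true, Nat.ble_eq] at h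
    cases h2 with
    | cons g1 g2 => exact List.Forall₂.cons (hQ _ _ _ h.1 g1) (leL_spec hQ a b _ h.2 g2)

theorem Match.dom {d : Data} {a s : St} {D : Set V} {R : List V} (h : Match T x y d s D R)
    (hd : dom a s = true) : Match T x y d a D R := by
  simp only [H44Shell.dom, Bool.and_eq_true, List.all_eq_true, List.any_eq_true, Nat.beq_eq] at hd
  obtain ⟨⟨g1, g2⟩, g3⟩ := hd
  refine ⟨leL_spec (Q := fun n w => n ≤ (T.neighborSet w \ D).ncard)
    (fun n m w h1 h2 => h1.trans h2) _ _ _ g2 h.1, ?_, ?_⟩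
  · intro e he
    obtain ⟨f, hf, e1, e2⟩ := g3 e he
    have : e = f := Prod.ext e1 e2
    exact this ▸ h.2.1 f hf
  · intro i hi
    apply h.2.2
    have e : a.S &&& s.S = a.S := g1
    rw [← e, Nat.testBit_and, Bool.and_eq_true] at hi
    exact hi.2

end H44Shell
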