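import Pool.Agent.H44.ShellData

namespace H44Shell

theorem allSt_split (d : Data) : ∀ (n : ℕ) (ws : List ℕ) (i : ℕ),
    allSt d (ws.take n) i = true → allSt d (ws.drop n) (i + n) = true → allSt d ws i = true
  | 0, ws, i, _, h => h
  | _ + 1, [], _, _, _ => rfl
  | n + 1, W :: ws, i, h1, h2 => by
    rw [List.take_succ_cons, allSt, fN_eq, Bool.and_eq_true] at h1
    rw [allSt, fN_eq, Bool.and_eq_true]
    refine ⟨h1.1, allSt_split d n ws (i + 1) h1.2 ?_⟩
    rw [List.drop_succ_cons] at h2
    rw [show i + 1 + n = i + (n + 1) by omega]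
    exact h2

end H44Shell
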